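import Pool.Agent.R410.NG.Nat2
import Pool.Agent.R410.NG.Asy

/-!
# Averages of functions on the points of a scheme over the integers of a number field
-/

set_option autoImplicit false
set_option linter.all false
set_option maxHeartbeats 1000000

namespace Pool.Agent.Run7.h642.NG

open Polynomial NumberField IsDedekindDomain Filter Topology
open Pool.Agent.R410.BS (cF)
open Pool.Agent.R410.NG (finsum_sub residue_fun natural_fun)
open Pool.Agent.Y707.PR (HasResidue)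
open Pool.Agent.Y707.DK (bound_fin)
open Pool.Agent.H921R2.TatePole (kerPrime kerPrime_bijective)

/-- a function on the points of the spectrum of the ring with values in fields -/
abbrev Pf (R : Type) [CommRing R] : Type 1 := ∀ (F : Type) [Field F], (R →+* F) → ℝ

/-- the function does not change under isomorphisms of the fields -/
def PIso {R : Type} [CommRing R] (f : Pf R) : Prop :=
  ∀ (F F' : Type) [Field F] [Field F'] (e : F ≃+* F') (φ : R →+* F),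
    f F' ((e : F →+* F').comp φ) = f F φ

section
variable {O R : Type} [CommRing O] [CommRing R]

/-- the sum over the points above `ψ` -/
noncomputable def sO (f : Pf R) (ρ : O →+* R) (N : R) (F : Type) [Field F] (ψ : O →+* F) : ℝ :=
  ∑ᶠ φ : {φ : R →+* F // φ.comp ρ = ψ ∧ φ N ≠ 0}, f F φ.1

/-- the sum over all points -/
noncomputable def sA (f : Pf R) (N : R) (F : Type) [Field F] : ℝ :=
  ∑ᶠ φ : {φ : R →+* F // φ N ≠ 0}, f F φ.1

open Classical in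
theorem sO_eq (f : Pf R) (ρ : O →+* R) (N : R) (F : Type) [Field F] [Fintype (R →+* F)]
    (ψ : O →+* F) : sO f ρ N F ψ = ∑ φ : R →+* F, if φ.comp ρ = ψ ∧ φ N ≠ 0 then f F φ else 0 :=
  finsum_sub (fun φ : R →+* F => φ.comp ρ = ψ ∧ φ N ≠ 0) (fun φ => f F φ)

open Classical in
theorem sA_eq (f : Pf R) (N : R) (F : Type) [Field F] [Fintype (R →+* F)] :
    sA f N F = ∑ φ : R →+* F, if φ N ≠ 0 then f F φ else 0 :=
  finsum_sub (fun φ : R →+* F => φ N ≠ 0) (fun φ => f F φ)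

theorem sA_sum (f : Pf R) (ρ : O →+* R) (N : R) (F : Type) [Field F] [Finite (R →+* F)]
    [Fintype (O →+* F)] : sA f N F = ∑ ψ : O →+* F, sO f ρ N F ψ := by
  classical
  let _ : Fintype (R →+* F) := Fintype.ofFinite _
  rw [sA_eq]
  simp only [sO_eq]
  rw [Finset.sum_comm]
  refine Finset.sum_congr rfl fun φ _ => ?_
  rw [Finset.sum_eq_single (φ.comp ρ)]
  · by_cases h : φ N ≠ 0
    · rw [if_pos h, if_pos ⟨rfl, h⟩]
    · rw [if_neg h, if_neg fun h' => h h'.2]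
  · intro ψ _ hne
    rw [if_neg]
    exact fun h' => hne h'.1.symm
  · intro h
    exact (h (Finset.mem_univ _)).elim

/-- The sums do not change under isomorphisms. -/
theorem sO_iso {f : Pf R} (hf : PIso f) (ρ : O →+* R) (N : R) {F F' : Type} [Field F] [Field F']
    (e : F ≃+* F') (ψ : O →+* F) : sO f ρ N F' ((e : F →+* F').comp ψ) = sO f ρ N F ψ := by
  unfold sO
  let E : {φ : R →+* F // φ.comp ρ = ψ ∧ φ N ≠ 0} ≃
      {φ : R →+* F' // φ.comp ρ = (e : F →+* F').comp ψ ∧ φ N ≠ 0} :=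
    { toFun := fun φ => ⟨(e : F →+* F').comp φ.1, by
        rw [RingHom.comp_assoc, φ.2.1], by
        rw [RingHom.comp_apply]
        exact (map_ne_zero_iff _ e.injective).2 φ.2.2⟩
      invFun := fun φ => ⟨(e.symm : F' →+* F).comp φ.1, by
        rw [RingHom.comp_assoc, φ.2.1, ← RingHom.comp_assoc]
        ext x
        show e.symm (e (ψ x)) = ψ x
        rw [e.symm_apply_apply], by
        rw [RingHom.comp_apply]
        exact (map_ne_zero_iff _ e.symm.injective).2 φ.2.2⟩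
      left_inv := fun φ => Subtype.ext (RingHom.ext fun x => e.symm_apply_apply _)
      right_inv := fun φ => Subtype.ext (RingHom.ext fun x => e.apply_symm_apply _) }
  refine (finsum_comp_equiv E (f := fun φ => f F' φ.1)).symm.trans ?_
  refine finsum_congr fun φ => ?_
  exact hf F F' e φ.1

end

section
variable {k : Type} [Field k] [NumberField k] {R : Type} [CommRing R] [Algebra.FiniteType ℤ R]
  [Algebra (𝓞 k) R]

/-- the average over the points of the fibre at `v` -/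
noncomputable def avO (f : Pf R) (N : R) (m : ℕ) (v : HeightOneSpectrum (𝓞 k)) : ℝ :=
  ((Nat.card (𝓞 k ⧸ v.asIdeal) : ℝ) ^ m)⁻¹ *
    sO f (algebraMap (𝓞 k) R) N (𝓞 k ⧸ v.asIdeal) (Ideal.Quotient.mk v.asIdeal)

theorem avO_ker {f : Pf R} (hf : PIso f) (N : R) (m : ℕ) (p : Nat.Primes)
    (ψ : 𝓞 k →+* ZMod (p : ℕ)) :
    letI : Fact (p : ℕ).Prime := ⟨p.2⟩
    avO f N m (kerPrime p ψ).1.1 =
      (((p : ℕ) : ℝ) ^ m)⁻¹ * sO f (algebraMap (𝓞 k) R) N (ZMod (p : ℕ)) ψ := by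
  letI : Fact (p : ℕ).Prime := ⟨p.2⟩
  have hsurj : Function.Surjective ψ := ZMod.ringHom_surjective ψ
  let e : (𝓞 k ⧸ (kerPrime p ψ).1.1.asIdeal) ≃+* ZMod (p : ℕ) :=
    RingHom.quotientKerEquivOfSurjective hsurj
  have he : (e : (𝓞 k ⧸ (kerPrime p ψ).1.1.asIdeal) →+* ZMod (p : ℕ)).comp
      (Ideal.Quotient.mk (kerPrime p ψ).1.1.asIdeal) = ψ := by
    ext x
    rfl
  have h1 := sO_iso hf (algebraMap (𝓞 k) R) N e (Ideal.Quotient.mk (kerPrime p ψ).1.1.asIdeal)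
  rw [he] at h1
  unfold avO
  have h2 : Nat.card (𝓞 k ⧸ (kerPrime p ψ).1.1.asIdeal) = (p : ℕ) := by
    rw [Nat.card_congr e.toEquiv, Nat.card_eq_fintype_card, ZMod.card]
  rw [h2, h1]

/-- the data of the averages -/
theorem avO_data {f : Pf R} (hf : PIso f) {N : R} {e : ℕ}
    {κ : Type} [Fintype κ] (L : κ → Type) [∀ j, Field (L j)] [∀ j, NumberField (L j)] (a : κ → ℝ)
    (h1 : ∃ (C : ℝ) (m : ℕ), 0 ≤ C ∧ m ≠ 0 ∧ ∀ (F : Type) [Field F] [Finite F], ((m : ℕ) : F) ≠ 0 →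
      ∀ ψ : 𝓞 k →+* F, |sO f (algebraMap (𝓞 k) R) N F ψ| ≤ C * (Nat.card F : ℝ) ^ e)
    (h2 : ∃ (C : ℝ) (m : ℕ), 0 ≤ C ∧ m ≠ 0 ∧ ∀ (F : Type) [Field F] [Finite F], ((m : ℕ) : F) ≠ 0 →
      |sA f N F - cF L a F * (Nat.card F : ℝ) ^ e| * √(Nat.card F : ℝ) ≤
        C * (Nat.card F : ℝ) ^ e) :
    (∃ B' : ℝ, ∀ v : HeightOneSpectrum (𝓞 k), |avO f N e v| ≤ B') ∧
    ∃ D : ℝ, ∀ᶠ p : Nat.Primes in cofinite, |∑ᶠ ψ : 𝓞 k →+* ZMod (p : ℕ),
      avO f N e (kerPrime p ψ).1.1 - cF L a (ZMod (p : ℕ))| ≤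
        D * ((p : ℕ) : ℝ) ^ (-(1 / 2) : ℝ) := by
  classical
  obtain ⟨C1, m1, hC1, hm1, g1⟩ := h1
  obtain ⟨C2, m2, hC2, hm2, g2⟩ := h2
  -- the average is bounded
  have hb : ∀ᶠ v : HeightOneSpectrum (𝓞 k) in cofinite, |avO f N e v| ≤ C1 := by
    have hm : ((m1 : ℕ) : 𝓞 k) ≠ 0 := by
      exact_mod_cast hm1
    filter_upwards [Pool.Agent.Y707.PC.ae_notMem hm] with v hv
    have hfin := Pool.Agent.H341R2.finite_v v
    have hmv : ((m1 : ℕ) : 𝓞 k ⧸ v.asIdeal) ≠ 0 := by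
      intro h0
      apply hv
      rw [← Ideal.Quotient.eq_zero_iff_mem, map_natCast]
      exact h0
    have e1 := g1 (𝓞 k ⧸ v.asIdeal) hmv (Ideal.Quotient.mk v.asIdeal)
    unfold avO
    set q : ℝ := (Nat.card (𝓞 k ⧸ v.asIdeal) : ℝ) with hq
    have hq1 : (1 : ℝ) ≤ q := by
      rw [hq]
      exact_mod_cast Nat.card_pos
    have hqe : (0 : ℝ) < q ^ e := by positivity
    rw [abs_mul, abs_of_pos (inv_pos.2 hqe), inv_mul_le_iff₀ hqe, mul_comm]
    exact e1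
  obtain ⟨B', hB'⟩ := bound_fin hb
  refine ⟨⟨B', hB'⟩, C2, ?_⟩
  have hcof : ∀ᶠ p : Nat.Primes in Filter.cofinite, ((m2 : ℕ) : ZMod (p : ℕ)) ≠ 0 := by
    have hfin : {p : Nat.Primes | ((m2 : ℕ) : ZMod (p : ℕ)) = 0}.Finite := by
      refine Set.Finite.of_injOn (f := fun p : Nat.Primes => (p : ℕ))
        (t := ((m2).primeFactors : Set ℕ)) ?_ ?_ (Finset.finite_toSet _)
      · intro p hp
        rw [Set.mem_ofPred_eq, ZMod.natCast_eq_zero_iff] at hp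
        exact Nat.mem_primeFactors.2 ⟨p.2, hp, hm2⟩
      · intro p _ q _ h
        exact Subtype.ext h
    rw [Filter.eventually_cofinite]
    simpa only [ne_eq, not_not] using hfin
  filter_upwards [hcof] with p hp
  have : Fact (p : ℕ).Prime := ⟨p.2⟩
  have hfin := Pool.Agent.H921R2.TatePole.hom_finite (K := k) p
  let _ := Fintype.ofFinite (𝓞 k →+* ZMod (p : ℕ))
  have hfinR : Finite (R →+* ZMod (p : ℕ)) := Pool.Agent.TH958.An.finite_hom _
  have hcard : (Nat.card (ZMod (p : ℕ)) : ℝ) = ((p : ℕ) : ℝ) := by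
    rw [Nat.card_eq_fintype_card, ZMod.card]
  have e2 := g2 (ZMod (p : ℕ)) hp
  rw [hcard] at e2
  set q : ℝ := ((p : ℕ) : ℝ) with hq
  have hq0 : (0 : ℝ) < q := by
    rw [hq]
    exact_mod_cast p.2.pos
  have hqe : (0 : ℝ) < q ^ e := by positivity
  have hs : 0 < √q := Real.sqrt_pos.2 hq0
  have e3 : ∑ᶠ ψ : 𝓞 k →+* ZMod (p : ℕ), avO f N e (kerPrime p ψ).1.1 =
      (q ^ e)⁻¹ * sA f N (ZMod (p : ℕ)) := by
    rw [finsum_eq_sum_of_fintype, sA_sum f (algebraMap (𝓞 k) R), Finset.mul_sum]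
    exact Finset.sum_congr rfl fun ψ _ => avO_ker hf N e p ψ
  have e5 : ((p : ℕ) : ℝ) ^ (-(1 / 2) : ℝ) = (√q)⁻¹ := by
    rw [hq, Real.sqrt_eq_rpow, ← Real.rpow_neg hq0.le]
  rw [e3, e5]
  have e6 : (q ^ e)⁻¹ * sA f N (ZMod (p : ℕ)) - cF L a (ZMod (p : ℕ)) =
      (sA f N (ZMod (p : ℕ)) - cF L a (ZMod (p : ℕ)) * q ^ e) / q ^ e := by
    field_simp
  rw [e6, abs_div, abs_of_pos hqe, div_le_iff₀ hqe, ← div_eq_mul_inv, div_mul_eq_mul_div,
    le_div_iff₀ hs]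
  exact e2

/-- **The residue.** -/
theorem res_model {f : Pf R} (hf : PIso f) {N : R} {e : ℕ} {r : ℤ}
    (h1 : ∃ (C : ℝ) (m : ℕ), 0 ≤ C ∧ m ≠ 0 ∧ ∀ (F : Type) [Field F] [Finite F], ((m : ℕ) : F) ≠ 0 →
      ∀ ψ : 𝓞 k →+* F, |sO f (algebraMap (𝓞 k) R) N F ψ| ≤ C * (Nat.card F : ℝ) ^ e)
    (h2 : Pool.Agent.R410.NG.Asy (fun F _ _ => sA f N F) e r)
    (S : Finset (HeightOneSpectrum (𝓞 k))) : HasResidue S (fun v => avO f N e v) 1 r := by
  obtain ⟨κ, i1, L, i2, i3, a, ha, C, m, hC, hm, h3⟩ := h2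
  obtain ⟨⟨B', hB'⟩, D, hD⟩ := avO_data hf (N := N) (e := e) L a h1 ⟨C, m, hC, hm, h3⟩
  exact residue_fun hB' L a ha hD S

/-- **The natural average.** -/
theorem nat_model {f : Pf R} (hf : PIso f) {N : R} {e : ℕ} {r : ℝ}
    (h1 : ∃ (C : ℝ) (m : ℕ), 0 ≤ C ∧ m ≠ 0 ∧ ∀ (F : Type) [Field F] [Finite F], ((m : ℕ) : F) ≠ 0 →
      ∀ ψ : 𝓞 k →+* F, |sO f (algebraMap (𝓞 k) R) N F ψ| ≤ C * (Nat.card F : ℝ) ^ e)
    (h2 : Pool.Agent.R410.NG.Asy (fun F _ _ => sA f N F) e r)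
    (S : Finset (HeightOneSpectrum (𝓞 k))) :
    Tendsto (Pool.Agent.W353.FB.average S fun v => avO f N e v) atTop (𝓝 r) := by
  obtain ⟨κ, i1, L, i2, i3, a, ha, C, m, hC, hm, h3⟩ := h2
  obtain ⟨⟨B', hB'⟩, D, hD⟩ := avO_data hf (N := N) (e := e) L a h1 ⟨C, m, hC, hm, h3⟩
  exact natural_fun hB' L a ha hD S

/-- the negative of the function -/
noncomputable def ngf (f : Pf R) : Pf R := fun F _ φ => -f F φ

theorem sO_ngf {O : Type} [CommRing O] (f : Pf R) (ρ : O →+* R) (N : R) (F : Type) [Field F]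
    (ψ : O →+* F) : sO (ngf f) ρ N F ψ = -sO f ρ N F ψ := by
  unfold sO ngf
  rw [finsum_neg_distrib]

theorem sA_ngf (f : Pf R) (N : R) (F : Type) [Field F] : sA (ngf f) N F = -sA f N F := by
  unfold sA ngf
  rw [finsum_neg_distrib]

theorem avO_ngf (f : Pf R) (N : R) (m : ℕ) (v : HeightOneSpectrum (𝓞 k)) :
    avO (ngf f) N m v = -avO f N m v := by
  unfold avO
  rw [sO_ngf, mul_neg]

theorem piso_ngf {f : Pf R} (hf : PIso f) : PIso (ngf f) := by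
  intro F F' _ _ e φ
  unfold ngf
  rw [hf F F' e φ]

/-- **The residue of the negative.** -/
theorem res_neg {f : Pf R} (hf : PIso f) {N : R} {e : ℕ} {r : ℕ}
    (h1 : ∃ (C : ℝ) (m : ℕ), 0 ≤ C ∧ m ≠ 0 ∧ ∀ (F : Type) [Field F] [Finite F], ((m : ℕ) : F) ≠ 0 →
      ∀ ψ : 𝓞 k →+* F, |sO f (algebraMap (𝓞 k) R) N F ψ| ≤ C * (Nat.card F : ℝ) ^ e)
    (h2 : Pool.Agent.R410.NG.Asy (fun F _ _ => sA f N F) e (-(r : ℝ)))
    (S : Finset (HeightOneSpectrum (𝓞 k))) : HasResidue S (fun v => -avO f N e v) 1 r := by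
  have h3 : Pool.Agent.R410.NG.Asy (fun F _ _ => sA (ngf f) N F) e ((r : ℤ) : ℝ) := by
    have h4 := h2.neg
    rw [neg_neg] at h4
    rw [Int.cast_natCast]
    exact h4.congr 1 one_ne_zero fun F _ _ _ => sA_ngf f N F
  have h5 := res_model (piso_ngf hf) (by
    obtain ⟨C, m, hC, hm, h⟩ := h1
    refine ⟨C, m, hC, hm, fun F _ _ hF ψ => ?_⟩
    rw [sO_ngf, abs_neg]
    exact h F hF ψ) h3 S
  have h6 : (fun v : HeightOneSpectrum (𝓞 k) => avO (ngf f) N e v) = fun v => -avO f N e v :=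
    funext fun v => avO_ngf f N e v
  rw [h6, Int.cast_natCast] at h5
  exact h5

end

end Pool.Agent.Run7.h642.NG
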