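import Pool.Agent.Run7.h642.NG.Over
import Pool.Agent.Run7.h954.CP.Fnl

/-!
# The bound for the sums over the points above a point of the ring of integers
-/

set_option autoImplicit false
set_option linter.all false
set_option maxHeartbeats 1000000

namespace Pool.Agent.Run7.h642.NG

open Polynomial NumberField
open Pool.Agent.R410.LW (ft_int FG)
open Pool.Agent.Run7.h954.CP

/-- the number of the points does not change under isomorphisms -/
theorem trc2_iso {F F' : Type} [Field F] [Field F'] (e : F ≃+* F') (H : F[X][X]) :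
    trc2 F' (H.map (mapRingHom (e : F →+* F'))) = trc2 F H := by
  unfold trc2
  rw [Nat.card_congr e.toEquiv]
  congr 2
  refine (Nat.card_congr ?_).symm
  refine (Equiv.prodCongr e.toEquiv e.toEquiv).subtypeEquiv fun z => ?_
  have h1 := evalEval_map (e : F →+* F') z.1 z.2 H
  show evalEval z.1 z.2 H = 0 ↔ evalEval (e z.1) (e z.2) _ = 0
  have h2 : evalEval (e z.1) (e z.2) (H.map (mapRingHom (e : F →+* F'))) = e (evalEval z.1 z.2 H) := h1
  rw [h2]
  exact (map_eq_zero_iff _ e.injective).symm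

theorem piso_tf {P : Type} [CommRing P] (G : P[X][X]) : PIso (tf G) := by
  intro F F' _ _ e φ
  unfold tf
  rw [← trc2_iso e, Polynomial.map_map, mapRingHom_comp]

section
variable {O M K E A₀ : Type} [CommRing O] [Field M] [CharZero M] [Field K] [CharZero K] [Field E]
  [Algebra M K] [Algebra K E] [Algebra M E] [IsScalarTower M K E]
  [CommRing A₀] [IsDomain A₀] [Algebra.FiniteType ℤ A₀] [Algebra A₀ M] [IsFractionRing A₀ M]

/-- **The bound for the sums over the points above a point.** -/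
theorem over_bound {d k : ℕ} {w : Fin (k + 1) → K} {z : Fin (k + 2) → E}
    (hd : Algebra.trdeg ℚ M = d) (hw : AlgebraicIndependent M w)
    (hK : IntermediateField.adjoin M (Set.range w) = ⊤)
    (hz : AlgebraicIndependent M z) (hE : IntermediateField.adjoin M (Set.range z) = ⊤)
    (τ : O →+* A₀) {R : Type} [CommRing R] [IsDomain R] [Algebra R K] [IsFractionRing R K]
    [Algebra.FiniteType ℤ R] (ρ : O →+* R)
    (hρ : ∀ x, algebraMap R K (ρ x) = algebraMap M K (algebraMap A₀ M (τ x)))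
    {G : R[X][X]} {H : K[X][X]} (hG : G.map (mapRingHom (algebraMap R K)) = H) (hm : G.Monic)
    [IsDomain (AdjoinRoot H)]
    [Algebra (AdjoinRoot H) E] [IsFractionRing (AdjoinRoot H) E] [IsScalarTower K (AdjoinRoot H) E]
    {N : R} (hN : N ≠ 0) :
    ∃ (C : ℝ) (m : ℕ), 0 ≤ C ∧ m ≠ 0 ∧ ∀ (F : Type) [Field F] [Finite F], ((m : ℕ) : F) ≠ 0 →
      ∀ ψ : O →+* F, |sO (tf G) ρ N F ψ| ≤ C * (Nat.card F : ℝ) ^ (d + (k + 1)) := by
  classical
  have hA : Function.Injective (algebraMap A₀ M) := IsFractionRing.injective A₀ M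
  have hcE : CharZero E := charZero_of_injective_algebraMap (algebraMap K E).injective
  have hiR : Function.Injective (algebraMap R K) := IsFractionRing.injective R K
  let ι := rootMap (mapRingHom (algebraMap R K)) G H hG
  letI a7 : Algebra (AdjoinRoot G) E := ((algebraMap (AdjoinRoot H) E).comp ι).toAlgebra
  letI a8 : Algebra (MvPolynomial (Fin (k + 2)) A₀) E := (evw A₀ M z).toAlgebra
  letI a9 : Algebra (MvPolynomial (Fin (k + 1)) A₀) K := (evw A₀ M w).toAlgebra
  have hftP : ∀ j : ℕ, @Algebra.FiniteType ℤ (MvPolynomial (Fin j) A₀) _ _ (Ring.toIntAlgebra _) := by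
    intro j
    have h1 : Algebra.FiniteType A₀ (MvPolynomial (Fin j) A₀) := inferInstance
    exact ft_int _ (Algebra.FiniteType.trans (inferInstance : Algebra.FiniteType ℤ A₀) h1)
  have hftP1 := hftP (k + 1)
  have hftP2 := hftP (k + 2)
  have hftC : @Algebra.FiniteType ℤ (AdjoinRoot G) _ _ (Ring.toIntAlgebra _) := by
    have h3 : Algebra.FiniteType ℤ (AdjoinRoot G) := inferInstance
    exact ft_int _ h3
  have hinj : Function.Injective ι := rootMap_inj _ (Polynomial.map_injective _ hiR) G hm H hG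
  have hdG : IsDomain (AdjoinRoot G) := hinj.isDomain ι
  have hlocK : IsLoc (nonZeroDivisors R) (algebraMap R K) := isLoc_iff.2 inferInstance
  have hSC : (nonZeroDivisors R).map (C : R →+* R[X]) ≤ nonZeroDivisors R[X] := by
    rintro _ ⟨s, hs, rfl⟩
    exact mem_nonZeroDivisors_of_ne_zero fun h => nonZeroDivisors.ne_zero hs (C_eq_zero.1 h)
  have hloc := (hlocK.poly).root hSC G hm H hG
  have hfrC : IsFractionRing (AdjoinRoot G) E := loc_frac (E := E) hloc hinj
  have hfrT : IsFractionRing (MvPolynomial (Fin (k + 2)) A₀) E := evw_loc hz hE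
  have hfrP : IsFractionRing (MvPolynomial (Fin (k + 1)) A₀) K := evw_loc hw hK
  have hcst : ∀ x : R, algebraMap (AdjoinRoot G) E (cst G x) = algebraMap K E (algebraMap R K x) := by
    intro x
    show algebraMap (AdjoinRoot H) E (ι (cst G x)) = _
    have e1 : ι (cst G x) = algebraMap K (AdjoinRoot H) (algebraMap R K x) := by
      rw [cst_mk]
      show rootMap _ _ _ _ _ = _
      rw [rootMap_mk, map_C, coe_mapRingHom, map_C]
      rfl
    rw [e1, ← IsScalarTower.algebraMap_apply K (AdjoinRoot H) E]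
  have hN' : cst G N ≠ 0 := by
    intro h0
    have h1 := hcst N
    rw [h0, map_zero] at h1
    exact ((map_ne_zero_iff _ (algebraMap K E).injective).2 ((map_ne_zero_iff _ hiR).2 hN)) h1.symm
  have hρ1 : (algebraMap R K).comp ρ =
      (algebraMap (MvPolynomial (Fin (k + 1)) A₀) K).comp (MvPolynomial.C.comp τ) := by
    refine RingHom.ext fun x => ?_
    show algebraMap R K (ρ x) = evw A₀ M w (MvPolynomial.C (τ x))
    rw [evw_C, hρ]
  have hρ2 : (algebraMap (AdjoinRoot G) E).comp ((cst G).comp ρ) =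
      (algebraMap (MvPolynomial (Fin (k + 2)) A₀) E).comp (MvPolynomial.C.comp τ) := by
    refine RingHom.ext fun x => ?_
    show algebraMap (AdjoinRoot G) E (cst G (ρ x)) = evw A₀ M z (MvPolynomial.C (τ x))
    rw [evw_C, hcst, hρ, ← IsScalarTower.algebraMap_apply M K E]
  have he1 : Algebra.trdeg ℚ K ≤ (d + (k + 1) : ℕ) := (trdeg_rat hw hK hd).le
  have he2 : Algebra.trdeg ℚ E ≤ (d + (k + 1) + 1 : ℕ) := (trdeg_rat hz hE hd).le
  obtain ⟨C1, m1, hC1, hm1, g1⟩ := hom_over he1 ρ (MvPolynomial.C.comp τ) hρ1 hN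
    (one_ne_zero (α := MvPolynomial (Fin (k + 1)) A₀))
  obtain ⟨C2, m2, hC2, hm2, g2⟩ := hom_over he2 ((cst G).comp ρ) (MvPolynomial.C.comp τ) hρ2 hN'
    (one_ne_zero (α := MvPolynomial (Fin (k + 2)) A₀))
  refine ⟨C1 + C2, m1 * m2, add_nonneg hC1 hC2, mul_ne_zero hm1 hm2, fun F _ _ hF ψ => ?_⟩
  rw [Nat.cast_mul] at hF
  have hfR : Finite (R →+* F) := Pool.Agent.TH958.An.finite_hom F
  have e1 := g1 F (left_ne_zero_of_mul hF) ψ
  have e2 := g2 F (right_ne_zero_of_mul hF) ψ
  rw [card_mv_over] at e1 e2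
  rw [sO_tf]
  set q : ℝ := (Nat.card F : ℝ) with hq
  have hq0 : (0 : ℝ) < q := by
    rw [hq]
    exact_mod_cast Nat.card_pos
  set a1 : ℝ := (Nat.card {φ : R →+* F // φ.comp ρ = ψ ∧ φ N ≠ 0} : ℝ) with ha1
  set a4 : ℝ := (Nat.card {χ : AdjoinRoot G →+* F // χ.comp ((cst G).comp ρ) = ψ ∧
    χ (cst G N) ≠ 0} : ℝ) with ha4
  set a0 : ℝ := (Nat.card {φ : A₀ →+* F // φ.comp τ = ψ} : ℝ) with ha0
  have e1' : |a1 - a0 * q ^ (k + 1)| * q ≤ C1 * q ^ (d + (k + 1)) := by
    have := e1
    push_cast at this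
    exact this
  have e2' : |a4 - a0 * q ^ (k + 2)| * q ≤ C2 * q ^ (d + (k + 1) + 1) := by
    have := e2
    push_cast at this
    exact this
  have e3 : |a4 - a0 * q ^ (k + 2)| ≤ C2 * q ^ (d + (k + 1)) := by
    rw [pow_succ q (d + (k + 1)), ← mul_assoc] at e2'
    exact le_of_mul_le_mul_right e2' hq0
  have e4 : q * a1 - a4 = (a1 - a0 * q ^ (k + 1)) * q - (a4 - a0 * q ^ (k + 2)) := by ring
  rw [e4]
  calc |(a1 - a0 * q ^ (k + 1)) * q - (a4 - a0 * q ^ (k + 2))| ≤
      |(a1 - a0 * q ^ (k + 1)) * q| + |a4 - a0 * q ^ (k + 2)| := abs_sub _ _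
    _ = |a1 - a0 * q ^ (k + 1)| * q + |a4 - a0 * q ^ (k + 2)| := by
        rw [abs_mul, abs_of_pos hq0]
    _ ≤ (C1 + C2) * q ^ (d + (k + 1)) := by
        rw [add_mul]
        exact add_le_add e1' e3

end

end Pool.Agent.Run7.h642.NG
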