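import Pool.Agent.Run7.h642.NG.Sf
import Pool.Agent.Run7.h954.CP.Fnl

/-!
# The Euler product for the surfaces
-/

set_option autoImplicit false
set_option linter.all false
set_option maxHeartbeats 1000000

namespace Pool.Agent.Run7.h642.NG

open Polynomial Filter Topology
open Pool.Agent.R410.LW (ft_int FG)
open Pool.Agent.R410.NG (Asy asy_sH sH)
open Pool.Agent.R410.BS (hom_le)
open Pool.Agent.R410.EP (range_eq ZG)
open Pool.Agent.Run7.h954.CP
open Pool.Agent.TH958.An

section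
variable {k : Type} [Field k]

/-- the number of the points of the surface over the algebraic closure which are fixed by the `n`-th power -/
noncomputable def pts3 (k : Type) [Field k] (P : k[X][X][X]) (n : ℕ) : ℕ :=
  Nat.card {Q : AlgebraicClosure k × AlgebraicClosure k × AlgebraicClosure k // Q.1 ^ n = Q.1 ∧
    Q.2.1 ^ n = Q.2.1 ∧ Q.2.2 ^ n = Q.2.2 ∧
    evalEval Q.2.1 Q.2.2 ((P.map (mapRingHom (mapRingHom (algebraMap k (AlgebraicClosure k))))).map
      (mapRingHom (evalRingHom Q.1))) = 0}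

theorem map_comp_eval {F F' : Type} [CommRing F] [CommRing F'] (τ : F →+* F') (t : F) :
    (evalRingHom (τ t)).comp (mapRingHom τ) = τ.comp (evalRingHom t) := by
  apply Polynomial.ringHom_ext
  · intro a
    rw [RingHom.comp_apply, coe_mapRingHom, map_C, coe_evalRingHom, eval_C, RingHom.comp_apply,
      coe_evalRingHom, eval_C]
  · rw [RingHom.comp_apply, coe_mapRingHom, map_X, coe_evalRingHom, eval_X, RingHom.comp_apply,
      coe_evalRingHom, eval_X]

/-- **The points over an extension.** -/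
theorem pts3_eq {F : Type} [Field F] [Finite F] (σ : k →+* F) (P : k[X][X][X]) :
    pts3 k P (Nat.card F) = Nat.card {Q : F × F × F // evalEval Q.2.1 Q.2.2
      ((P.map (mapRingHom (mapRingHom σ))).map (mapRingHom (evalRingHom Q.1))) = 0} := by
  classical
  have hfin := Fintype.ofFinite F
  let _ : Algebra k F := σ.toAlgebra
  have : Finite k := Finite.of_injective σ σ.injective
  have hint : Algebra.IsAlgebraic k F := by
    have : Module.Finite k F := Module.Finite.of_finite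
    infer_instance
  let τ : F →ₐ[k] AlgebraicClosure k := IsAlgClosed.lift
  have hrange : ∀ x : AlgebraicClosure k, x ^ Nat.card F = x ↔ ∃ z : F, τ z = x := by
    intro x
    rw [Nat.card_eq_fintype_card]
    exact range_eq (τ : F →+* AlgebraicClosure k) x
  have hτσ : (τ : F →+* AlgebraicClosure k).comp σ = algebraMap k (AlgebraicClosure k) := by
    refine RingHom.ext fun a => ?_
    exact τ.commutes a
  have hev : ∀ t x y : F, evalEval (τ x) (τ y) ((P.map (mapRingHom (mapRingHom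
      (algebraMap k (AlgebraicClosure k))))).map (mapRingHom (evalRingHom (τ t)))) =
      τ (evalEval x y ((P.map (mapRingHom (mapRingHom σ))).map (mapRingHom (evalRingHom t)))) := by
    intro t x y
    have h1 := evalEval_map (τ : F →+* AlgebraicClosure k) x y
      ((P.map (mapRingHom (mapRingHom σ))).map (mapRingHom (evalRingHom t)))
    have h2 : (((P.map (mapRingHom (mapRingHom σ))).map (mapRingHom (evalRingHom t))).map
        (mapRingHom (τ : F →+* AlgebraicClosure k))) =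
        (P.map (mapRingHom (mapRingHom (algebraMap k (AlgebraicClosure k))))).map
          (mapRingHom (evalRingHom (τ t))) := by
      rw [Polynomial.map_map, Polynomial.map_map, Polynomial.map_map, mapRingHom_comp, mapRingHom_comp,
        mapRingHom_comp, ← hτσ]
      congr 2
      have h3 := map_comp_eval (τ : F →+* AlgebraicClosure k) t
      have h4 : (mapRingHom ((τ : F →+* AlgebraicClosure k).comp σ)) =
          (mapRingHom (τ : F →+* AlgebraicClosure k)).comp (mapRingHom σ) := (mapRingHom_comp _ _).symm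
      rw [h4]
      have h5 := congrArg (fun u => u.comp (mapRingHom σ)) h3
      simp only [RingHom.comp_assoc] at h5 ⊢
      exact h5.symm
    rw [h2] at h1
    exact h1
  unfold pts3
  refine (Nat.card_congr (Equiv.ofBijective (fun Q : {Q : F × F × F // evalEval Q.2.1 Q.2.2
      ((P.map (mapRingHom (mapRingHom σ))).map (mapRingHom (evalRingHom Q.1))) = 0} =>
    (⟨(τ Q.1.1, τ Q.1.2.1, τ Q.1.2.2), (hrange _).2 ⟨_, rfl⟩, (hrange _).2 ⟨_, rfl⟩,
      (hrange _).2 ⟨_, rfl⟩, by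
      show evalEval (τ Q.1.2.1) (τ Q.1.2.2) ((P.map (mapRingHom (mapRingHom
        (algebraMap k (AlgebraicClosure k))))).map (mapRingHom (evalRingHom (τ Q.1.1)))) = 0
      rw [hev, Q.2, map_zero]⟩ : {Q : AlgebraicClosure k × AlgebraicClosure k × AlgebraicClosure k //
    Q.1 ^ Nat.card F = Q.1 ∧ Q.2.1 ^ Nat.card F = Q.2.1 ∧ Q.2.2 ^ Nat.card F = Q.2.2 ∧
      evalEval Q.2.1 Q.2.2 ((P.map (mapRingHom (mapRingHom (algebraMap k (AlgebraicClosure k))))).map
      (mapRingHom (evalRingHom Q.1))) = 0})) ⟨?_, ?_⟩)).symm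
  · intro Q Q' h
    have h1 := congrArg (fun w => w.1) h
    have h2 := Prod.ext_iff.1 h1
    have h3 := Prod.ext_iff.1 h2.2
    exact Subtype.ext (Prod.ext (τ.injective h2.1) (Prod.ext (τ.injective h3.1) (τ.injective h3.2)))
  · rintro ⟨⟨t, x, y⟩, h0, h1, h2, h3⟩
    obtain ⟨t, rfl⟩ := (hrange _).1 h0
    obtain ⟨x, rfl⟩ := (hrange _).1 h1
    obtain ⟨y, rfl⟩ := (hrange _).1 h2
    refine ⟨⟨(t, x, y), ?_⟩, rfl⟩
    apply τ.injective
    show τ (evalEval x y _) = τ 0
    rw [map_zero, ← hev]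
    exact h3

end

section
variable {R : Type} [CommRing R]

/-- the trace on `H²` divided by `n` -/
noncomputable def t3 (G : R[X][X][X]) (G' : R[X][X]) (y : Pt R) (n : ℕ) : ℝ :=
  (n : ℝ)⁻¹ * (((pts3 (Res y) (G.map (mapRingHom (mapRingHom (Ideal.Quotient.mk y.asIdeal)))) n +
    pts2 (Res y) (G'.map (mapRingHom (Ideal.Quotient.mk y.asIdeal))) n + (n + 1) : ℕ) : ℝ) - 1 -
      (n : ℝ) ^ 2)

theorem t3_eq (G : R[X][X][X]) (G' : R[X][X]) {F : Type} [Field F] [Finite F] (φ : R →+* F) :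
    t3 G G' (ptOf φ) (Nat.card F) = fs G G' F φ := by
  let ψ : Res (ptOf φ) →+* F := fiberEquiv (F := F) (ptOf φ) ⟨φ, rfl⟩
  have hψ : ψ.comp (Ideal.Quotient.mk (ptOf φ).asIdeal) = φ := by
    ext x
    rfl
  have h1 := pts3_eq ψ (G.map (mapRingHom (mapRingHom (Ideal.Quotient.mk (ptOf φ).asIdeal))))
  have h2 := pts2_eq ψ (G'.map (mapRingHom (Ideal.Quotient.mk (ptOf φ).asIdeal)))
  rw [Polynomial.map_map, mapRingHom_comp, mapRingHom_comp, hψ] at h1
  rw [Polynomial.map_map, mapRingHom_comp, hψ] at h2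
  unfold trc2 at h2
  have h3 : (pts2 (Res (ptOf φ)) (G'.map (mapRingHom (Ideal.Quotient.mk (ptOf φ).asIdeal)))
      (Nat.card F) : ℝ) = Nat.card {z : F × F // evalEval z.1 z.2 (G'.map (mapRingHom φ)) = 0} := by
    linarith
  have h4 : pts2 (Res (ptOf φ)) (G'.map (mapRingHom (Ideal.Quotient.mk (ptOf φ).asIdeal)))
      (Nat.card F) = Nat.card {z : F × F // evalEval z.1 z.2 (G'.map (mapRingHom φ)) = 0} := by
    exact_mod_cast h3
  unfold t3 fs tr3
  rw [h1, h4]

end

section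
variable {K : Type} [Field K] [CharZero K]

/-- **The sums over the points of the base.** -/
theorem asy_fs (hKF : FG K) {e : ℕ} (htr : Algebra.trdeg ℚ K = e) {a b : ℕ} (ha : 0 < a)
    (hb : 0 < b) (hab : a.Coprime b) {R : Type} [CommRing R] [IsDomain R] [Algebra.FiniteType ℤ R]
    [Algebra R K] [IsFractionRing R K] {G : R[X][X][X]} {G' : R[X][X]}
    (hcab : IsCab a b G') {N : R} (hN : N ≠ 0) (ρ : ℕ)
    (h1 : Asy (fun F _ _ => sA (tf G) (C N) F) (e + 1) (-(ρ : ℝ))) :
    Asy (fun F _ _ => sA (fs G G') N F) e ((2 + ρ : ℤ) : ℝ) := by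
  classical
  obtain ⟨C3, hC3, g3⟩ := hom_le (R := R) (K := K) (IsFractionRing.injective R K) (e := e)
    (by rw [htr])
  obtain ⟨c, hc0, hc⟩ := weil_map ha hb hab
  have hcG : ∀ (F : Type) [Field F] [Finite F] (φ : R →+* F), |tf G' F φ| ≤ c * √(Nat.card F : ℝ) :=
    fun F _ _ φ => hc R G' hcab F φ
  have hqq : ∀ (F : Type) [Field F] [Finite F], (0 : ℝ) < Nat.card F := fun F _ _ => by
    exact_mod_cast Nat.card_pos
  -- the small term
  have h3 : Asy (fun F _ _ => sA (tf G') N F) (e + 1) 0 := by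
    refine (Asy.zero (e + 1)).near ⟨C3 * c, 1, mul_nonneg hC3 hc0, one_ne_zero, fun F _ _ _ => ?_⟩
    have hfR : Finite (R →+* F) := Pool.Agent.TH958.An.finite_hom F
    have e2 : |sA (tf G') N F| ≤ (Nat.card (R →+* F) : ℝ) * (c * √(Nat.card F : ℝ)) := by
      let _ : Fintype (R →+* F) := Fintype.ofFinite _
      rw [sA_eq]
      calc |∑ φ : R →+* F, if φ N ≠ 0 then tf G' F φ else 0| ≤
          ∑ φ : R →+* F, |if φ N ≠ 0 then tf G' F φ else 0| := Finset.abs_sum_le_sum_abs _ _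
        _ ≤ ∑ φ : R →+* F, c * √(Nat.card F : ℝ) := by
            refine Finset.sum_le_sum fun φ _ => ?_
            split_ifs
            · exact hcG F φ
            · rw [abs_zero]
              exact mul_nonneg hc0 (Real.sqrt_nonneg _)
        _ = _ := by
            rw [Finset.sum_const, Finset.card_univ, nsmul_eq_mul, ← Nat.card_eq_fintype_card]
    rw [sub_zero]
    have hs : √(Nat.card F : ℝ) * √(Nat.card F : ℝ) = Nat.card F := Real.mul_self_sqrt (hqq F).le
    calc |sA (tf G') N F| * √(Nat.card F : ℝ) ≤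
        ((Nat.card (R →+* F) : ℝ) * (c * √(Nat.card F : ℝ))) * √(Nat.card F : ℝ) :=
          mul_le_mul_of_nonneg_right e2 (Real.sqrt_nonneg _)
      _ = (Nat.card (R →+* F) : ℝ) * (c * (√(Nat.card F : ℝ) * √(Nat.card F : ℝ))) := by ring
      _ ≤ (C3 * (Nat.card F : ℝ) ^ e) * (c * (√(Nat.card F : ℝ) * √(Nat.card F : ℝ))) :=
          mul_le_mul_of_nonneg_right (g3 F) (by positivity)
      _ = C3 * c * (Nat.card F : ℝ) ^ (e + 1) := by
          rw [hs]
          ring
  -- the sums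
  have hsum : ∀ (F : Type) [Field F] [Finite F] [Finite (R →+* F)] (Q : (R →+* F) → Prop),
      ∑ᶠ φ : {φ : R →+* F // Q φ}, fs G G' F φ.1 = 2 * (Nat.card {φ : R →+* F // Q φ} : ℝ) -
        (Nat.card F : ℝ)⁻¹ * (∑ᶠ φ : {φ : R →+* F // Q φ}, lf (tf G) F φ.1) -
        (Nat.card F : ℝ)⁻¹ * (∑ᶠ φ : {φ : R →+* F // Q φ}, tf G' F φ.1) := by
    intro F _ _ _ Q
    let _ : Fintype {φ : R →+* F // Q φ} := Fintype.ofFinite _
    rw [finsum_eq_sum_of_fintype, finsum_eq_sum_of_fintype, finsum_eq_sum_of_fintype, Finset.mul_sum,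
      Finset.mul_sum]
    have e1 : (2 * (Nat.card {φ : R →+* F // Q φ} : ℝ)) = ∑ φ : {φ : R →+* F // Q φ}, (2 : ℝ) := by
      rw [Finset.sum_const, Finset.card_univ, nsmul_eq_mul, ← Nat.card_eq_fintype_card]
      ring
    rw [e1, ← Finset.sum_sub_distrib, ← Finset.sum_sub_distrib]
    exact Finset.sum_congr rfl fun φ _ => fs_eq G G' F φ.1
  apply Asy.divq
  have t1 := ((asy_sH hKF htr hN).smul 2).mulq
  have t2 := (t1.add h1.neg).add h3.neg
  have e1 : (2 : ℝ) * 1 + -(-(ρ : ℝ)) + -0 = ((2 + ρ : ℤ) : ℝ) := by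
    push_cast
    ring
  rw [e1] at t2
  refine t2.congr 1 one_ne_zero fun F _ _ _ => ?_
  have hfR : Finite (R →+* F) := Pool.Agent.TH958.An.finite_hom F
  have e2 := hsum F (fun φ => φ N ≠ 0)
  have e3 : sA (fs G G') N F = 2 * (Nat.card {φ : R →+* F // φ N ≠ 0} : ℝ) -
      (Nat.card F : ℝ)⁻¹ * sA (lf (tf G)) N F - (Nat.card F : ℝ)⁻¹ * sA (tf G') N F := e2
  rw [e3, sA_line]
  have hq := (hqq F).ne'
  show (Nat.card F : ℝ) * _ = (Nat.card F : ℝ) * (2 * (Nat.card {φ : R →+* F // φ N ≠ 0} : ℝ)) +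
    -sA (tf G) (C N) F + -sA (tf G') N F
  field_simp
  ring

/-- **The Euler product.** -/
theorem euler_fs (hKF : FG K) {e : ℕ} (htr : Algebra.trdeg ℚ K = e) {a b : ℕ} (ha : 0 < a)
    (hb : 0 < b) (hab : a.Coprime b) {R : Type} [CommRing R] [IsDomain R] [Algebra.FiniteType ℤ R]
    [Algebra R K] [IsFractionRing R K] {G : R[X][X][X]} {G' : R[X][X]}
    (hG : IsCab a b G) (hcab : IsCab a b G') {N : R} {r : ℤ}
    (h4 : Asy (fun F _ _ => sA (fs G G') N F) e (r : ℝ)) :
    ∃ Φ : ℂ → ℂ,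
      (∀ s : ℂ, (e : ℝ) + 3 / 2 < s.re → HasProd (fun y : {y : Pt R // N ∉ y.asIdeal} =>
        ZG (t3 G G') y.1 ((qy y.1 : ℂ) ^ (-s))) (Φ s)) ∧
      DifferentiableOn ℂ Φ {s : ℂ | (e : ℝ) + 1 < s.re} ∧
      MeromorphicAt Φ ((e : ℂ) + 1) ∧ meromorphicOrderAt Φ ((e : ℂ) + 1) = ((-r : ℤ) : WithTop ℤ) := by
  obtain ⟨c, hc0, hc⟩ := weil_map ha hb hab
  obtain ⟨C3, hC3, g3⟩ := hom_le (R := R) (K := K) (IsFractionRing.injective R K) (e := e)
    (by rw [htr])
  have hb' : ∀ (F : Type) [Field F] [Finite F] (φ : R →+* F), |fs G G' F φ| ≤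
      (2 + 2 * c) * √(Nat.card F : ℝ) := by
    intro F _ _ φ
    have hq : (0 : ℝ) < Nat.card F := by exact_mod_cast Nat.card_pos
    have hq1 : (1 : ℝ) ≤ Nat.card F := by exact_mod_cast Nat.card_pos
    have hs1 : 1 ≤ √(Nat.card F : ℝ) := by
      rw [Real.one_le_sqrt]
      exact hq1
    rw [fs_eq]
    have i1 : |lf (tf G) F φ| ≤ (Nat.card F : ℝ) * (c * √(Nat.card F : ℝ)) := by
      let _ : Fintype F := Fintype.ofFinite F
      unfold lf
      rw [finsum_eq_sum_of_fintype]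
      calc |∑ t : F, tf G F (eval₂RingHom φ t)| ≤ ∑ t : F, |tf G F (eval₂RingHom φ t)| :=
            Finset.abs_sum_le_sum_abs _ _
        _ ≤ ∑ t : F, c * √(Nat.card F : ℝ) :=
            Finset.sum_le_sum fun t _ => hc R[X] G hG F (eval₂RingHom φ t)
        _ = _ := by rw [Finset.sum_const, Finset.card_univ, nsmul_eq_mul, ← Nat.card_eq_fintype_card]
    have i2 : |tf G' F φ| ≤ c * √(Nat.card F : ℝ) := hc R G' hcab F φ
    have j1 : |(Nat.card F : ℝ)⁻¹ * lf (tf G) F φ| ≤ c * √(Nat.card F : ℝ) := by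
      rw [abs_mul, abs_inv, abs_of_pos hq, inv_mul_le_iff₀ hq]
      exact i1
    have j2 : |(Nat.card F : ℝ)⁻¹ * tf G' F φ| ≤ c * √(Nat.card F : ℝ) := by
      rw [abs_mul, abs_inv, abs_of_pos hq, inv_mul_le_iff₀ hq]
      refine i2.trans ?_
      have : 0 ≤ c * √(Nat.card F : ℝ) := by positivity
      nlinarith
    calc |2 - (Nat.card F : ℝ)⁻¹ * lf (tf G) F φ - (Nat.card F : ℝ)⁻¹ * tf G' F φ| ≤
        |(2 : ℝ)| + |(Nat.card F : ℝ)⁻¹ * lf (tf G) F φ| + |(Nat.card F : ℝ)⁻¹ * tf G' F φ| :=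
          (abs_sub _ _).trans (add_le_add (abs_sub _ _) le_rfl)
      _ ≤ 2 * √(Nat.card F : ℝ) + c * √(Nat.card F : ℝ) + c * √(Nat.card F : ℝ) := by
          rw [abs_two]
          linarith
      _ = _ := by ring
  have h1 : Asy (fun F _ _ => ∑ᶠ φ : {φ : R →+* F // φ N ≠ 0}, t3 G G' (ptOf φ.1) (Nat.card F)) e
      (r : ℝ) := by
    refine h4.congr 1 one_ne_zero fun F _ _ _ => ?_
    unfold sA
    exact finsum_congr fun φ => t3_eq G G' φ.1
  exact euler_gen2 (τ := t3 G G') (N := N) (D := 2 + 2 * c) (by positivity) (fun F _ _ φ => by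
    rw [t3_eq]
    exact hb' F φ) hC3 (fun F _ _ => g3 F) h1

end

end Pool.Agent.Run7.h642.NG
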