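import Pool.Agent.Run7.h642.NG.Cov

/-!
# The averages for the curves with a rational total space
-/

set_option autoImplicit false
set_option linter.all false
set_option maxHeartbeats 1000000

namespace Pool.Agent.Run7.h642.NG

open Polynomial NumberField IsDedekindDomain Filter Topology
open Pool.Agent.R410.LW (ft_int FG)
open Pool.Agent.R410.NG (Asy exists_ringk rho rho_apply)
open Pool.Agent.Run7.h954.CP

section
variable {k₀ : Type} [Field k₀] [NumberField k₀] {M K E : Type} [Field M] [CharZero M] [Algebra k₀ M]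
  [Field K] [CharZero K] [Field E] [Algebra M K] [Algebra K E] [Algebra M E] [IsScalarTower M K E]

/-- **The two estimates for every model.** -/
theorem cab_model (hM : FG M) {d k : ℕ} {w : Fin (k + 1) → K} {z : Fin (k + 2) → E} {n m : ℕ}
    {H : K[X][X]} (hd : Algebra.trdeg ℚ M = d) (hw : AlgebraicIndependent M w)
    (hK : IntermediateField.adjoin M (Set.range w) = ⊤)
    (hz : AlgebraicIndependent M z) (hE : IntermediateField.adjoin M (Set.range z) = ⊤)
    (hn : 0 < n) (hm : 0 < m) (hcop : n.Coprime m) (hH : IsCab n m H)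
    [IsDedekindDomain (AdjoinRoot H)]
    [Algebra (AdjoinRoot H) E] [IsFractionRing (AdjoinRoot H) E] [IsScalarTower K (AdjoinRoot H) E] :
    ∃ ρ : ℕ, Module.rank ℤ (Additive (ClassGroup (AdjoinRoot H))) = ρ ∧
      ∀ (R : Type) [CommRing R] [IsDomain R] [Algebra R K] [IsFractionRing R K]
        [Algebra.FiniteType ℤ R] [Algebra (𝓞 k₀) R],
        (∀ x : 𝓞 k₀, algebraMap R K (algebraMap (𝓞 k₀) R x) = algebraMap M K (algebraMap k₀ M x)) →
        ∀ (G : R[X][X]), G.map (mapRingHom (algebraMap R K)) = H → ∀ N : R, N ≠ 0 →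
          Asy (fun F _ _ => sA (tf G) N F) (d + (k + 1)) (-(ρ : ℝ)) ∧
          ∃ (C : ℝ) (m : ℕ), 0 ≤ C ∧ m ≠ 0 ∧ ∀ (F : Type) [Field F] [Finite F], ((m : ℕ) : F) ≠ 0 →
            ∀ ψ : 𝓞 k₀ →+* F, |sO (tf G) (algebraMap (𝓞 k₀) R) N F ψ| ≤
              C * (Nat.card F : ℝ) ^ (d + (k + 1)) := by
  obtain ⟨ρ, hρ, hasy⟩ := rank_asy hM hd hw hK hz hE hn hm hcop hH
  refine ⟨ρ, hρ, ?_⟩
  intro R _ _ _ _ _ _ hk G hG N hN
  refine ⟨hasy R G hG N hN, ?_⟩
  obtain ⟨A, -, hft, hfr, hAk⟩ := exists_ringk (k := k₀) hM ∅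
  have hft' : @Algebra.FiniteType ℤ A _ _ (Ring.toIntAlgebra _) := ft_int _ hft
  have hmon : G.Monic :=
    (IsCab.of_map (algebraMap R K) (IsFractionRing.injective R K) (by rw [hG]; exact hH) :
      IsCab n m G).monic hn |>.1
  exact over_bound (A₀ := A) hd hw hK hz hE (rho hAk) (algebraMap (𝓞 k₀) R) (fun x => by
    rw [hk, rho_apply]) hG hmon hN

end

end Pool.Agent.Run7.h642.NG
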