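import Pool.Agent.Run7.h642.NG.Abs
import Pool.Agent.Run7.h954.CP.Mdl
import Pool.Agent.R410.NG.PPR

/-!
# The sums over the points above a point of the ring of integers
-/

set_option autoImplicit false
set_option linter.all false
set_option maxHeartbeats 1000000

namespace Pool.Agent.Run7.h642.NG

open Polynomial NumberField
open Pool.Agent.R410.NG (transfer_sum Wt IsWt sR)
open Pool.Agent.R410.BS (good_le hom_le)
open Pool.Agent.Run7.h954.CP (mvEquiv rootEquiv rootEquiv_of trc2 cst cst_mk)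

/-- the weight `√q` -/
noncomputable def wsq : Wt Empty := fun F _ _ => √(Nat.card F : ℝ)

theorem isWt_wsq (n : Empty → ℕ) : IsWt wsq n 1 where
  c0 := zero_le_one
  iso F F' _ _ e p := by
    unfold wsq
    rw [Nat.card_congr e.toEquiv]
  bound F _ _ p _ := by
    unfold wsq
    rw [abs_of_nonneg (Real.sqrt_nonneg _), one_mul]

section
variable {O R B K : Type} [CommRing O] [CommRing R] [IsDomain R] [CommRing B] [IsDomain B] [Field K]
  [CharZero K] [Algebra R K] [IsFractionRing R K] [Algebra B K] [IsFractionRing B K]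
  [Algebra.FiniteType ℤ R] [Algebra.FiniteType ℤ B]

/-- the numbers of the points of two models above a point -/
theorem hom_over {e : ℕ} (he : Algebra.trdeg ℚ K ≤ e) (ρ : O →+* R) (ρ' : O →+* B)
    (hρ : (algebraMap R K).comp ρ = (algebraMap B K).comp ρ') {N : R} (hN : N ≠ 0) {N' : B}
    (hN' : N' ≠ 0) :
    ∃ (C : ℝ) (m : ℕ), 0 ≤ C ∧ m ≠ 0 ∧ ∀ (F : Type) [Field F] [Finite F], ((m : ℕ) : F) ≠ 0 →
      ∀ ψ : O →+* F, |(Nat.card {φ : R →+* F // φ.comp ρ = ψ ∧ φ N ≠ 0} : ℝ) -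
        Nat.card {φ : B →+* F // φ.comp ρ' = ψ ∧ φ N' ≠ 0}| * (Nat.card F : ℝ) ≤
        C * (Nat.card F : ℝ) ^ e := by
  classical
  obtain ⟨C, m, hC, hm, h⟩ := transfer_sum (isWt_wsq fun x => x.elim) he ρ ρ' hρ
    (g := fun x : Empty => x.elim) (g' := fun x : Empty => x.elim) (fun x => x.elim)
    (fun x => x.elim) hN hN'
  refine ⟨C, m, hC, hm, fun F _ _ hF ψ => ?_⟩
  have h1 := h F hF ψ
  have hfR : Finite (R →+* F) := Pool.Agent.TH958.An.finite_hom F
  have hfB : Finite (B →+* F) := Pool.Agent.TH958.An.finite_hom F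
  have e1 : ∀ (Q : Type) [CommRing Q] [Finite (Q →+* F)] (τ : O →+* Q) (g : Empty → Q[X]) (N : Q),
      sR wsq τ g N F ψ = (Nat.card {φ : Q →+* F // φ.comp τ = ψ ∧ φ N ≠ 0} : ℝ) *
        √(Nat.card F : ℝ) := by
    intro Q _ _ τ g N
    let _ : Fintype {φ : Q →+* F // φ.comp τ = ψ ∧ φ N ≠ 0} := Fintype.ofFinite _
    unfold sR wsq
    rw [finsum_eq_sum_of_fintype, Finset.sum_const, Finset.card_univ, nsmul_eq_mul,
      ← Nat.card_eq_fintype_card]
  rw [e1, e1, ← sub_mul, abs_mul, abs_of_nonneg (Real.sqrt_nonneg _), mul_assoc,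
    Real.mul_self_sqrt (Nat.cast_nonneg _)] at h1
  exact h1

end

section
variable {O A F : Type} [CommRing O] [CommRing A] [Field F] {k : ℕ}

theorem card_mv_over (ρ : O →+* A) (ψ : O →+* F) :
    Nat.card {φ : MvPolynomial (Fin k) A →+* F // φ.comp (MvPolynomial.C.comp ρ) = ψ ∧ φ 1 ≠ 0} =
    Nat.card {φ : A →+* F // φ.comp ρ = ψ} * Nat.card F ^ k := by
  have e1 : {φ : MvPolynomial (Fin k) A →+* F // φ.comp (MvPolynomial.C.comp ρ) = ψ ∧ φ 1 ≠ 0} ≃
      {w : (A →+* F) × (Fin k → F) // w.1.comp ρ = ψ} := by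
    refine (mvEquiv (A := A) (F := F) (k := k)).subtypeEquiv fun φ => ?_
    constructor
    · rintro ⟨h, -⟩
      exact h
    · intro h
      exact ⟨h, by rw [map_one]; exact one_ne_zero⟩
  have e2 : {w : (A →+* F) × (Fin k → F) // w.1.comp ρ = ψ} ≃
      {φ : A →+* F // φ.comp ρ = ψ} × (Fin k → F) :=
    { toFun := fun w => (⟨w.1.1, w.2⟩, w.1.2)
      invFun := fun w => ⟨(w.1.1, w.2), w.1.2⟩
      left_inv := fun w => rfl
      right_inv := fun w => rfl }
  rw [Nat.card_congr (e1.trans e2), Nat.card_prod, Nat.card_fun, Nat.card_fin]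

end

section
variable {O P : Type} [CommRing O] [CommRing P]

/-- the function of the points: the number of the elements of the field minus the number of the points -/
noncomputable def tf (G : P[X][X]) : Pf P := fun F _ φ => trc2 F (G.map (mapRingHom φ))

theorem sO_tf (H : P[X][X]) (ρ : O →+* P) (N : P) (F : Type) [Field F] [Finite F] [Finite (P →+* F)]
    (ψ : O →+* F) : sO (tf H) ρ N F ψ =
      (Nat.card F : ℝ) * Nat.card {φ : P →+* F // φ.comp ρ = ψ ∧ φ N ≠ 0} -
      Nat.card {χ : AdjoinRoot H →+* F // χ.comp ((cst H).comp ρ) = ψ ∧ χ (cst H N) ≠ 0} := by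
  classical
  let _ : Fintype {φ : P →+* F // φ.comp ρ = ψ ∧ φ N ≠ 0} := Fintype.ofFinite _
  unfold sO tf trc2
  rw [finsum_eq_sum_of_fintype, Finset.sum_sub_distrib, Finset.sum_const, Finset.card_univ,
    nsmul_eq_mul, ← Nat.card_eq_fintype_card]
  congr 1
  · ring
  · have e1 : {χ : AdjoinRoot H →+* F // χ.comp ((cst H).comp ρ) = ψ ∧ χ (cst H N) ≠ 0} ≃
        {w : Σ φ : P →+* F, {z : F × F // evalEval z.1 z.2 (H.map (mapRingHom φ)) = 0} //
          w.1.comp ρ = ψ ∧ w.1 N ≠ 0} :=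
      (rootEquiv H).subtypeEquiv fun χ => by
        have h1 : χ.comp ((cst H).comp ρ) = (rootEquiv H χ).1.comp ρ := RingHom.ext fun z => rfl
        rw [h1]
        exact Iff.rfl
    have e2 : {w : Σ φ : P →+* F, {z : F × F // evalEval z.1 z.2 (H.map (mapRingHom φ)) = 0} //
        w.1.comp ρ = ψ ∧ w.1 N ≠ 0} ≃ Σ φ : {φ : P →+* F // φ.comp ρ = ψ ∧ φ N ≠ 0},
          {z : F × F // evalEval z.1 z.2 (H.map (mapRingHom φ.1)) = 0} :=
      { toFun := fun w => ⟨⟨w.1.1, w.2⟩, w.1.2⟩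
        invFun := fun w => ⟨⟨w.1.1, w.2⟩, w.1.2⟩
        left_inv := fun w => rfl
        right_inv := fun w => rfl }
    rw [Nat.card_congr (e1.trans e2), Nat.card_sigma]
    push_cast
    rfl

end

end Pool.Agent.Run7.h642.NG
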