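import Pool.Agent.Run7.h642.NG.Mn
import Pool.Agent.R410.NG.Cj
import Pool.Agent.R410.NG.Sg

/-!
# Products of curves with rational total spaces
-/

set_option autoImplicit false
set_option linter.all false
set_option maxHeartbeats 1000000

namespace Pool.Agent.Run7.h642.NG

open Polynomial NumberField IsDedekindDomain Filter Topology
open Pool.Agent.R410.LW (ft_int FG)
open Pool.Agent.R410.NG (Asy exists_ringk rho rho_apply residue_shift)
open Pool.Agent.R410.BS (hom_le)
open Pool.Agent.Y707.PR (HasResidue)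
open Pool.Agent.Run7.h954.CP

theorem smooth_map {R S : Type} [CommRing R] [CommRing S] {H : R[X][X]} (h : IsSmooth H)
    (φ : R →+* S) : IsSmooth (H.map (mapRingHom φ)) := by
  obtain ⟨a, b, c, habc⟩ := (isSmooth_iff _).1 h
  rw [isSmooth_iff]
  refine ⟨a.map (mapRingHom φ), b.map (mapRingHom φ), c.map (mapRingHom φ), ?_⟩
  have h1 := congrArg (Polynomial.map (mapRingHom φ)) habc
  rw [Polynomial.map_add, Polynomial.map_add, Polynomial.map_mul, Polynomial.map_mul,
      Polynomial.map_mul, dx_map, ← derivative_map, Polynomial.map_one] at h1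
  exact h1

section
variable {R : Type} [CommRing R]

/-- the product of the functions of two curves -/
noncomputable def pf (G G' : R[X][X]) : Pf R := fun F _ φ => tf G F φ * tf G' F φ

/-- the sum over the points of the family of curves -/
theorem sA_pf [Algebra.FiniteType ℤ R] (G G' : R[X][X]) (N : R) (F : Type) [Field F] [Finite F] :
    sA (pf G G') N F = (Nat.card F : ℝ) * sA (tf G') N F -
      sA (tf (G'.map (mapRingHom (cst G)))) (cst G N) F := by
  classical
  have hfR : Finite (R →+* F) := Pool.Agent.TH958.An.finite_hom F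
  let _ : Fintype {φ : R →+* F // φ N ≠ 0} := Fintype.ofFinite _
  let _ : ∀ φ : R →+* F, Fintype {z : F × F // evalEval z.1 z.2 (G.map (mapRingHom φ)) = 0} :=
    fun φ => Fintype.ofFinite _
  have h1 : sA (tf (G'.map (mapRingHom (cst G)))) (cst G N) F =
      ∑ φ : {φ : R →+* F // φ N ≠ 0},
        (Nat.card {z : F × F // evalEval z.1 z.2 (G.map (mapRingHom φ.1)) = 0} : ℝ) * tf G' F φ.1 := by
    have e1 : {χ : AdjoinRoot G →+* F // χ (cst G N) ≠ 0} ≃
        {w : Σ φ : R →+* F, {z : F × F // evalEval z.1 z.2 (G.map (mapRingHom φ)) = 0} // w.1 N ≠ 0} :=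
      (rootEquiv G).subtypeEquiv fun χ => Iff.rfl
    let e2 : {w : Σ φ : R →+* F, {z : F × F // evalEval z.1 z.2 (G.map (mapRingHom φ)) = 0} //
        w.1 N ≠ 0} ≃ Σ φ : {φ : R →+* F // φ N ≠ 0},
          {z : F × F // evalEval z.1 z.2 (G.map (mapRingHom φ.1)) = 0} :=
      { toFun := fun w => ⟨⟨w.1.1, w.2⟩, w.1.2⟩
        invFun := fun w => ⟨⟨w.1.1, w.2⟩, w.1.2⟩
        left_inv := fun w => rfl
        right_inv := fun w => rfl }
    let e3 : {χ : AdjoinRoot G →+* F // χ (cst G N) ≠ 0} ≃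
        {w : Σ φ : R →+* F, {z : F × F // evalEval z.1 z.2 (G.map (mapRingHom φ)) = 0} // w.1 N ≠ 0} :=
      (rootEquiv G).subtypeEquiv fun χ => Iff.rfl
    unfold sA
    rw [← finsum_comp_equiv (e3.trans e2).symm, finsum_eq_sum_of_fintype, Fintype.sum_sigma]
    refine Finset.sum_congr rfl fun φ _ => ?_
    have h3 : ∀ y : {z : F × F // evalEval z.1 z.2 (G.map (mapRingHom φ.1)) = 0},
        tf (G'.map (mapRingHom (cst G))) F ((e3.trans e2).symm ⟨φ, y⟩).1 = tf G' F φ.1 := by
      intro y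
      unfold tf
      rw [Polynomial.map_map, mapRingHom_comp]
      have h4 : ((e3.trans e2).symm ⟨φ, y⟩).1.comp (cst G) = φ.1 := by
        have h5 : (rootEquiv G ((e3.trans e2).symm ⟨φ, y⟩).1).1 = φ.1 := by
          show (rootEquiv G ((rootEquiv G).symm ⟨φ.1, y⟩)).1 = φ.1
          rw [Equiv.apply_symm_apply]
        exact h5
      rw [h4]
    rw [Finset.sum_congr rfl fun y _ => h3 y, Finset.sum_const, Finset.card_univ, nsmul_eq_mul,
      ← Nat.card_eq_fintype_card]
  rw [h1]
  unfold sA pf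
  rw [finsum_eq_sum_of_fintype, finsum_eq_sum_of_fintype, Finset.mul_sum, ← Finset.sum_sub_distrib]
  refine Finset.sum_congr rfl fun φ _ => ?_
  rw [← sub_mul]
  rfl

/-- the trace on `H²` divided by the order of the field -/
noncomputable def f2 {r : ℕ} (G : Fin r → R[X][X]) : Pf R := fun F _ φ =>
  (r : ℝ) + (Nat.card F : ℝ)⁻¹ * ∑ i, ∑ j, if i < j then tf (G i) F φ * tf (G j) F φ else 0

theorem piso_f2 {r : ℕ} (G : Fin r → R[X][X]) : PIso (f2 G) := by
  intro F F' _ _ e φ
  unfold f2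
  have h : ∀ i, tf (G i) F' ((e : F →+* F').comp φ) = tf (G i) F φ := fun i => piso_tf (G i) F F' e φ
  simp only [h]
  rw [Nat.card_congr e.toEquiv]

theorem f2_bound {r : ℕ} {G : Fin r → R[X][X]} {c : ℝ} (hc0 : 0 ≤ c)
    (hc : ∀ i, ∀ (F : Type) [Field F] [Finite F] (φ : R →+* F), |tf (G i) F φ| ≤ c * √(Nat.card F : ℝ))
    (F : Type) [Field F] [Finite F] (φ : R →+* F) : |f2 G F φ| ≤ (r : ℝ) + (r : ℝ) * ((r : ℝ) * (c * c)) := by
  have hq : (0 : ℝ) < (Nat.card F : ℝ) := by exact_mod_cast Nat.card_pos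
  have hs : √(Nat.card F : ℝ) * √(Nat.card F : ℝ) = Nat.card F := Real.mul_self_sqrt hq.le
  have h1 : |∑ i, ∑ j, if i < j then tf (G i) F φ * tf (G j) F φ else 0| ≤
      ∑ i : Fin r, ∑ j : Fin r, (c * c) * (Nat.card F : ℝ) := by
    refine (Finset.abs_sum_le_sum_abs _ _).trans (Finset.sum_le_sum fun i _ => ?_)
    refine (Finset.abs_sum_le_sum_abs _ _).trans (Finset.sum_le_sum fun j _ => ?_)
    by_cases h : i < j
    · rw [if_pos h, abs_mul]
      calc |tf (G i) F φ| * |tf (G j) F φ| ≤ (c * √(Nat.card F : ℝ)) * (c * √(Nat.card F : ℝ)) :=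
            mul_le_mul (hc i F φ) (hc j F φ) (abs_nonneg _) (by positivity)
        _ = (c * c) * (√(Nat.card F : ℝ) * √(Nat.card F : ℝ)) := by ring
        _ = _ := by rw [hs]
    · rw [if_neg h, abs_zero]
      positivity
  unfold f2
  refine (abs_add_le _ _).trans ?_
  rw [abs_mul, abs_inv, abs_of_pos hq, Nat.abs_cast]
  refine add_le_add le_rfl ?_
  rw [inv_mul_le_iff₀ hq]
  refine h1.trans (le_of_eq ?_)
  simp only [Finset.sum_const, Finset.card_univ, Fintype.card_fin, nsmul_eq_mul]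
  ring

theorem sA_f2 [Algebra.FiniteType ℤ R] {r : ℕ} (G : Fin r → R[X][X]) (N : R) (F : Type) [Field F]
    [Finite F] :
    (Nat.card F : ℝ) * sA (f2 G) N F = (Nat.card F : ℝ) * ((r : ℝ) * Nat.card {φ : R →+* F // φ N ≠ 0}) +
      ∑ i, ∑ j, if i < j then sA (pf (G i) (G j)) N F else 0 := by
  classical
  have hfR : Finite (R →+* F) := Pool.Agent.TH958.An.finite_hom F
  let _ : Fintype {φ : R →+* F // φ N ≠ 0} := Fintype.ofFinite _
  have hq : (Nat.card F : ℝ) ≠ 0 := by
    have : (0 : ℝ) < (Nat.card F : ℝ) := by exact_mod_cast Nat.card_pos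
    exact this.ne'
  have e1 : ∀ φ : R →+* F, (Nat.card F : ℝ) * f2 G F φ = (Nat.card F : ℝ) * (r : ℝ) +
      ∑ i, ∑ j, if i < j then pf (G i) (G j) F φ else 0 := by
    intro φ
    unfold f2 pf
    rw [mul_add, ← mul_assoc (Nat.card F : ℝ) (Nat.card F : ℝ)⁻¹, mul_inv_cancel₀ hq, one_mul]
  have e2 : ∀ f : Pf R, sA f N F = ∑ φ : {φ : R →+* F // φ N ≠ 0}, f F φ.1 := fun f =>
    finsum_eq_sum_of_fintype _
  simp only [e2]
  rw [Finset.mul_sum, Finset.sum_congr rfl fun φ _ => e1 φ.1, Finset.sum_add_distrib, Finset.sum_const,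
    Finset.card_univ, nsmul_eq_mul, Nat.card_eq_fintype_card (α := {φ : R →+* F // φ N ≠ 0})]
  congr 1
  · ring
  · rw [Finset.sum_comm]
    refine Finset.sum_congr rfl fun i _ => ?_
    rw [Finset.sum_comm]
    refine Finset.sum_congr rfl fun j _ => ?_
    by_cases h : i < j
    · simp only [if_pos h]
    · simp only [if_neg h, Finset.sum_const_zero]

end

section
variable {M K E E' : Type} [Field M] [CharZero M] [Field K] [CharZero K] [Field E] [Algebra M K]
  [Algebra K E] [Algebra M E] [IsScalarTower M K E] [Field E'] [Algebra E E'] [Algebra M E']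
  [IsScalarTower M E E']

/-- **Two curves.** -/
theorem asy_pair (hM : FG M) {d k : ℕ} {w : Fin (k + 1) → K} {z : Fin (k + 2) → E}
    {z' : Fin (k + 3) → E'} {H H' : K[X][X]}
    (hd : Algebra.trdeg ℚ M = d) (hw : AlgebraicIndependent M w)
    (hK : IntermediateField.adjoin M (Set.range w) = ⊤)
    (hz : AlgebraicIndependent M z) (hE : IntermediateField.adjoin M (Set.range z) = ⊤)
    (hz' : AlgebraicIndependent M z') (hE' : IntermediateField.adjoin M (Set.range z') = ⊤)
    (hmH : ∀ (R : Type) [CommRing R] [Algebra R K] [IsFractionRing R K] [IsDomain R] (G : R[X][X]),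
      G.map (mapRingHom (algebraMap R K)) = H → G.Monic)
    [IsDomain (AdjoinRoot H)] [Algebra (AdjoinRoot H) E] [IsFractionRing (AdjoinRoot H) E]
    [IsScalarTower K (AdjoinRoot H) E]
    {n' m' : ℕ} (hn' : 0 < n') (hm' : 0 < m') (hcop' : n'.Coprime m') (hH' : IsCab n' m' H')
    (hs' : IsSmooth H') {ρ : ℕ}
    (hρ : ∀ (R : Type) [CommRing R] [IsDomain R] [Algebra R K] [IsFractionRing R K]
        [Algebra.FiniteType ℤ R] (G : R[X][X]), G.map (mapRingHom (algebraMap R K)) = H' →
        ∀ N : R, N ≠ 0 → Asy (fun F _ _ => sC G N F) (d + (k + 1)) (-(ρ : ℝ)))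
    [Algebra (AdjoinRoot (H'.map (mapRingHom (algebraMap K E)))) E']
    [IsFractionRing (AdjoinRoot (H'.map (mapRingHom (algebraMap K E)))) E']
    [IsScalarTower E (AdjoinRoot (H'.map (mapRingHom (algebraMap K E)))) E'] :
    ∃ (_ : IsDedekindDomain (AdjoinRoot (H'.map (mapRingHom (algebraMap K E))))) (ρ' : ℕ),
      Module.rank ℤ (Additive (ClassGroup (AdjoinRoot (H'.map (mapRingHom (algebraMap K E)))))) = ρ' ∧
      ∀ (R : Type) [CommRing R] [IsDomain R] [Algebra R K] [IsFractionRing R K]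
        [Algebra.FiniteType ℤ R] (G G' : R[X][X]), G.map (mapRingHom (algebraMap R K)) = H →
        G'.map (mapRingHom (algebraMap R K)) = H' →
        ∀ N : R, N ≠ 0 → Asy (fun F _ _ => sA (pf G G') N F) (d + (k + 2)) ((ρ' : ℝ) - ρ) := by
  classical
  have hcE : CharZero E := charZero_of_injective_algebraMap (algebraMap K E).injective
  have hHE : IsCab n' m' (H'.map (mapRingHom (algebraMap K E))) := hH'.map _
  have hded : IsDedekindDomain (AdjoinRoot (H'.map (mapRingHom (algebraMap K E)))) :=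
    dedekind_cab hn' hm' hcop' hHE (smooth_map hs' _)
  obtain ⟨ρ', h1, h2⟩ := rank_asy (k := k + 1) hM hd hz hE hz' hE' hn' hm' hcop' hHE
  refine ⟨hded, ρ', h1, ?_⟩
  intro R _ _ _ _ _ G G' hG hG' N hN
  have hiR : Function.Injective (algebraMap R K) := IsFractionRing.injective R K
  have hm : G.Monic := hmH R G hG
  let ι := rootMap (mapRingHom (algebraMap R K)) G H hG
  letI a7 : Algebra (AdjoinRoot G) E := ((algebraMap (AdjoinRoot H) E).comp ι).toAlgebra
  have hftC : @Algebra.FiniteType ℤ (AdjoinRoot G) _ _ (Ring.toIntAlgebra _) := by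
    have h3 : Algebra.FiniteType ℤ (AdjoinRoot G) := inferInstance
    exact ft_int _ h3
  have hinj : Function.Injective ι := rootMap_inj _ (Polynomial.map_injective _ hiR) G hm H hG
  have hdG : IsDomain (AdjoinRoot G) := hinj.isDomain ι
  have hlocK : IsLoc (nonZeroDivisors R) (algebraMap R K) := isLoc_iff.2 inferInstance
  have hSC : (nonZeroDivisors R).map (C : R →+* R[X]) ≤ nonZeroDivisors R[X] := by
    rintro _ ⟨s, hs, rfl⟩
    exact mem_nonZeroDivisors_of_ne_zero fun h => nonZeroDivisors.ne_zero hs (C_eq_zero.1 h)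
  have hloc := (hlocK.poly).root hSC G hm H hG
  have hfrC : IsFractionRing (AdjoinRoot G) E := loc_frac (E := E) hloc hinj
  have hcst : ∀ x : R, algebraMap (AdjoinRoot G) E (cst G x) = algebraMap K E (algebraMap R K x) := by
    intro x
    show algebraMap (AdjoinRoot H) E (ι (cst G x)) = _
    have e1 : ι (cst G x) = algebraMap K (AdjoinRoot H) (algebraMap R K x) := by
      rw [cst_mk]
      show rootMap _ _ _ _ _ = _
      rw [rootMap_mk, map_C, coe_mapRingHom, map_C]
      rfl
    rw [e1, ← IsScalarTower.algebraMap_apply K (AdjoinRoot H) E]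
  have hN' : cst G N ≠ 0 := by
    intro h0
    have h1 := hcst N
    rw [h0, map_zero] at h1
    exact ((map_ne_zero_iff _ (algebraMap K E).injective).2 ((map_ne_zero_iff _ hiR).2 hN)) h1.symm
  have hmap : (G'.map (mapRingHom (cst G))).map (mapRingHom (algebraMap (AdjoinRoot G) E)) =
      H'.map (mapRingHom (algebraMap K E)) := by
    rw [← hG', Polynomial.map_map, Polynomial.map_map, mapRingHom_comp, mapRingHom_comp]
    congr 2
    exact RingHom.ext hcst
  have a1 := h2 (AdjoinRoot G) (G'.map (mapRingHom (cst G))) hmap (cst G N) hN'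
  have a2 := (hρ R G' hG' N hN).mulq
  have a3 := a2.add a1.neg
  have e1 : -(ρ : ℝ) + -(-(ρ' : ℝ)) = (ρ' : ℝ) - ρ := by ring
  rw [e1] at a3
  refine a3.congr 1 one_ne_zero fun F _ _ _ => ?_
  rw [sA_pf, sub_eq_add_neg]
  rfl

end

end Pool.Agent.Run7.h642.NG
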