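import Pool.Agent.Run7.h642.NG.Pr

/-!
# The residue for the products
-/

set_option autoImplicit false
set_option linter.all false
set_option maxHeartbeats 1000000

namespace Pool.Agent.Run7.h642.NG

open Polynomial NumberField IsDedekindDomain Filter Topology
open Pool.Agent.R410.LW (ft_int FG)
open Pool.Agent.R410.NG (Asy exists_ringk rho rho_apply residue_shift asy_sH sH)
open Pool.Agent.R410.BS (hom_le)
open Pool.Agent.Y707.PR (HasResidue)
open Pool.Agent.Run7.h954.CP

section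
variable {O R : Type} [CommRing O] [CommRing R]

/-- A bounded function. -/
theorem sO_bound [Algebra.FiniteType ℤ R] {f : Pf R} {ρ : O →+* R} {N : R} {B : ℝ} (hB : 0 ≤ B)
    {F : Type} [Field F] [Finite F] (hf : ∀ φ : R →+* F, |f F φ| ≤ B) (ψ : O →+* F) :
    |sO f ρ N F ψ| ≤ (Nat.card (R →+* F) : ℝ) * B := by
  classical
  have hfR : Finite (R →+* F) := Pool.Agent.TH958.An.finite_hom F
  let _ : Fintype (R →+* F) := Fintype.ofFinite _
  rw [sO_eq]
  calc |∑ φ : R →+* F, if φ.comp ρ = ψ ∧ φ N ≠ 0 then f F φ else 0| ≤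
      ∑ φ : R →+* F, |if φ.comp ρ = ψ ∧ φ N ≠ 0 then f F φ else 0| := Finset.abs_sum_le_sum_abs _ _
    _ ≤ ∑ φ : R →+* F, B := by
        refine Finset.sum_le_sum fun φ _ => ?_
        split_ifs
        · exact hf φ
        · rw [abs_zero]
          exact hB
    _ = _ := by
        rw [Finset.sum_const, Finset.card_univ, nsmul_eq_mul, Nat.card_eq_fintype_card]

end

section
variable {k₀ : Type} [Field k₀] [NumberField k₀] {K : Type} [Field K] [CharZero K]

/-- **The residue.** -/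
theorem residue_f2 (hKF : FG K) {e : ℕ} (htr : Algebra.trdeg ℚ K = e) {r : ℕ} {a b : Fin r → ℕ}
    (ha : ∀ i, 0 < a i) (hb : ∀ i, 0 < b i) (hab : ∀ i, (a i).Coprime (b i))
    {R : Type} [CommRing R] [IsDomain R] [Algebra.FiniteType ℤ R] [Algebra R K] [IsFractionRing R K]
    [Algebra (𝓞 k₀) R] {G : Fin r → R[X][X]} (hcab : ∀ i, IsCab (a i) (b i) (G i))
    {N : R} (hN : N ≠ 0) (ρρ : Fin r → Fin r → ℤ)
    (hp : ∀ i j, i < j → Asy (fun F _ _ => sA (pf (G i) (G j)) N F) (e + 1) (ρρ i j : ℝ))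
    (S : Finset (HeightOneSpectrum (𝓞 k₀))) :
    HasResidue S (fun v => (Ideal.absNorm v.asIdeal : ℝ) * avO (f2 G) N e v) 2
      ((r + ∑ i, ∑ j, if i < j then ρρ i j else 0 : ℤ) : ℝ) := by
  classical
  -- the asymptotic value
  have h1 : Asy (fun F _ _ => sA (f2 G) N F) e
      ((r + ∑ i, ∑ j, if i < j then ρρ i j else 0 : ℤ) : ℝ) := by
    apply Asy.divq
    have t1 := ((asy_sH hKF htr hN).smul (r : ℝ)).mulq
    rw [mul_one] at t1
    have t2 : Asy (fun F _ _ => ∑ i, ∑ j, if i < j then sA (pf (G i) (G j)) N F else 0) (e + 1)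
        (∑ i, ∑ j, if i < j then (ρρ i j : ℝ) else 0) := by
      refine Asy.sum Finset.univ (fun i => fun F _ _ => ∑ j, if i < j then sA (pf (G i) (G j)) N F
        else 0) _ fun i _ => ?_
      refine Asy.sum Finset.univ (fun j => fun F _ _ => if i < j then sA (pf (G i) (G j)) N F else 0)
        _ fun j _ => ?_
      by_cases hij : i < j
      · simp only [if_pos hij]
        exact hp i j hij
      · simp only [if_neg hij]
        exact Asy.zero _
    have t3 := t1.add t2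
    have e1 : (r : ℝ) + ∑ i, ∑ j, (if i < j then (ρρ i j : ℝ) else 0) =
        ((r + ∑ i, ∑ j, if i < j then ρρ i j else 0 : ℤ) : ℝ) := by
      push_cast
      rfl
    rw [e1] at t3
    refine t3.congr 1 one_ne_zero fun F _ _ _ => ?_
    exact sA_f2 G N F
  obtain ⟨C3, hC3, g3⟩ := hom_le (R := R) (K := K) (IsFractionRing.injective R K) (e := e)
    (by rw [htr])
  have hw : ∀ i, ∃ c : ℝ, 0 ≤ c ∧ ∀ (F : Type) [Field F] [Finite F] (φ : R →+* F),
      |tf (G i) F φ| ≤ c * √(Nat.card F : ℝ) := by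
    intro i
    obtain ⟨c, hc0, hc⟩ := weil_map (ha i) (hb i) (hab i)
    exact ⟨c, hc0, fun F _ _ φ => hc R (G i) (hcab i) F φ⟩
  choose c hc0 hc using hw
  set c' : ℝ := ∑ i, c i with hc'
  have hc'0 : 0 ≤ c' := Finset.sum_nonneg fun i _ => hc0 i
  have hcc : ∀ i, ∀ (F : Type) [Field F] [Finite F] (φ : R →+* F),
      |tf (G i) F φ| ≤ c' * √(Nat.card F : ℝ) := fun i F _ _ φ =>
    (hc i F φ).trans (mul_le_mul_of_nonneg_right
      (Finset.single_le_sum (f := c) (fun j _ => hc0 j) (Finset.mem_univ i)) (Real.sqrt_nonneg _))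
  apply residue_shift
  refine res_model (piso_f2 G) ⟨C3 * ((r : ℝ) + (r : ℝ) * ((r : ℝ) * (c' * c'))), 1,
    mul_nonneg hC3 (by positivity), one_ne_zero, fun F _ _ _ ψ => ?_⟩ h1 S
  refine (sO_bound (B := (r : ℝ) + (r : ℝ) * ((r : ℝ) * (c' * c'))) (by positivity)
    (fun φ => f2_bound hc'0 hcc F φ) ψ).trans ?_
  calc (Nat.card (R →+* F) : ℝ) * ((r : ℝ) + (r : ℝ) * ((r : ℝ) * (c' * c'))) ≤
      (C3 * (Nat.card F : ℝ) ^ e) * ((r : ℝ) + (r : ℝ) * ((r : ℝ) * (c' * c'))) :=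
        mul_le_mul_of_nonneg_right (g3 F) (by positivity)
    _ = _ := by ring

end

end Pool.Agent.Run7.h642.NG
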