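import Pool.Agent.Run7.h642.NG.Rf

/-!
# Surfaces which are fibred over the line in curves with a rational total space
-/

set_option autoImplicit false
set_option linter.all false
set_option maxHeartbeats 1000000

namespace Pool.Agent.Run7.h642.NG

open Polynomial NumberField IsDedekindDomain Filter Topology
open Pool.Agent.R410.LW (ft_int FG)
open Pool.Agent.R410.NG (Asy exists_ringk rho rho_apply residue_shift asy_sH sH)
open Pool.Agent.R410.BS (hom_le)
open Pool.Agent.Y707.PR (HasResidue)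
open Pool.Agent.Run7.h954.CP

section
variable {M K : Type} [Field M] [Field K] [Algebra M K] {l : ℕ}

/-- the generators of the field of rational functions over `K` -/
noncomputable def consX (w : Fin l → K) : Fin (l + 1) → RatFunc K :=
  Fin.cons RatFunc.X (fun j => algebraMap K (RatFunc K) (w j))

theorem consX_indep {w : Fin l → K} (hw : AlgebraicIndependent M w) :
    AlgebraicIndependent M (consX w) := by
  let Φ : MvPolynomial (Fin (l + 1)) M →+* RatFunc K := (algebraMap K[X] (RatFunc K)).comp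
    ((mapRingHom ((MvPolynomial.aeval w : MvPolynomial (Fin l) M →ₐ[M] K) :
      MvPolynomial (Fin l) M →+* K)).comp
      ((MvPolynomial.finSuccEquiv M l : MvPolynomial (Fin (l + 1)) M ≃ₐ[M] _) :
        MvPolynomial (Fin (l + 1)) M →+* (MvPolynomial (Fin l) M)[X]))
  have h1 : ((MvPolynomial.aeval (consX w) : MvPolynomial (Fin (l + 1)) M →ₐ[M] RatFunc K) :
      MvPolynomial (Fin (l + 1)) M →+* RatFunc K) = Φ := by
    apply MvPolynomial.ringHom_ext
    · intro m
      show MvPolynomial.aeval (consX w) (MvPolynomial.C m) =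
        algebraMap K[X] (RatFunc K) (Polynomial.map _ (MvPolynomial.finSuccEquiv M l (MvPolynomial.C m)))
      rw [MvPolynomial.aeval_C]
      have e1 : MvPolynomial.finSuccEquiv M l (MvPolynomial.C m) = C (MvPolynomial.C m) := by
        simp [MvPolynomial.finSuccEquiv_apply]
      rw [e1, map_C]
      show _ = algebraMap K[X] (RatFunc K) (C (MvPolynomial.aeval w (MvPolynomial.C m)))
      rw [MvPolynomial.aeval_C, IsScalarTower.algebraMap_apply M K (RatFunc K)]
      rfl
    · intro i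
      show MvPolynomial.aeval (consX w) (MvPolynomial.X i) =
        algebraMap K[X] (RatFunc K) (Polynomial.map _ (MvPolynomial.finSuccEquiv M l (MvPolynomial.X i)))
      rw [MvPolynomial.aeval_X]
      refine Fin.cases ?_ (fun j => ?_) i
      · rw [MvPolynomial.finSuccEquiv_X_zero, map_X]
        unfold consX
        rw [Fin.cons_zero]
        exact (RatFunc.algebraMap_X).symm
      · rw [MvPolynomial.finSuccEquiv_X_succ, map_C]
        unfold consX
        rw [Fin.cons_succ]
        show _ = algebraMap K[X] (RatFunc K) (C (MvPolynomial.aeval w (MvPolynomial.X j)))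
        rw [MvPolynomial.aeval_X]
        rfl
  have h2 : Function.Injective Φ := by
    refine (RatFunc.algebraMap_injective K).comp ?_
    refine (Polynomial.map_injective _ ?_).comp (MvPolynomial.finSuccEquiv M l).injective
    exact hw
  intro p q h
  apply h2
  rw [← h1]
  exact h

theorem consX_top {w : Fin l → K} (hK : IntermediateField.adjoin M (Set.range w) = ⊤) :
    IntermediateField.adjoin M (Set.range (consX w)) = ⊤ := by
  set L := IntermediateField.adjoin M (Set.range (consX w)) with hL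
  have hX : (RatFunc.X : RatFunc K) ∈ L :=
    IntermediateField.subset_adjoin M _ ⟨0, rfl⟩
  have hw : ∀ j, algebraMap K (RatFunc K) (w j) ∈ L := fun j =>
    IntermediateField.subset_adjoin M _ ⟨j.succ, rfl⟩
  have hC : ∀ κ : K, algebraMap K (RatFunc K) κ ∈ L := by
    have h1 : IntermediateField.adjoin M (Set.range w) ≤
        L.comap (IsScalarTower.toAlgHom M K (RatFunc K)) := by
      rw [IntermediateField.adjoin_le_iff]
      rintro _ ⟨j, rfl⟩
      exact hw j
    intro κ
    have h2 : κ ∈ IntermediateField.adjoin M (Set.range w) := by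
      rw [hK]
      trivial
    exact h1 h2
  have hp : ∀ p : K[X], algebraMap K[X] (RatFunc K) p ∈ L := by
    intro p
    induction p using Polynomial.induction_on with
    | C a => exact hC a
    | add p q hp hq =>
      rw [map_add]
      exact add_mem hp hq
    | monomial n a ih =>
      rw [map_mul, map_pow, RatFunc.algebraMap_X]
      exact mul_mem (hC a) (pow_mem hX _)
  rw [eq_top_iff]
  intro f _
  obtain ⟨p, q, hq, rfl⟩ := IsFractionRing.div_surjective (A := K[X]) f
  exact div_mem (hp p) (hp q)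

end

section
variable {R : Type} [CommRing R]

/-- the points of the line over a scheme -/
noncomputable def lineEq (F : Type) [Field F] : (R[X] →+* F) ≃ (R →+* F) × F where
  toFun φ := (φ.comp C, φ X)
  invFun w := eval₂RingHom w.1 w.2
  left_inv φ := by
    apply Polynomial.ringHom_ext
    · intro a
      rw [coe_eval₂RingHom, eval₂_C]
      rfl
    · rw [coe_eval₂RingHom, eval₂_X]
  right_inv w := by
    refine Prod.ext ?_ ?_
    · refine RingHom.ext fun a => ?_
      show eval₂RingHom w.1 w.2 (C a) = _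
      rw [coe_eval₂RingHom, eval₂_C]
    · show eval₂RingHom w.1 w.2 X = _
      rw [coe_eval₂RingHom, eval₂_X]

/-- the sum over the line -/
noncomputable def lf (f : Pf R[X]) : Pf R := fun F _ φ => ∑ᶠ t : F, f F (eval₂RingHom φ t)

theorem sum_line {F : Type} [Field F] [Finite F] [Finite (R →+* F)] (f : Pf R[X])
    (Q : (R →+* F) → Prop) :
    ∑ᶠ φ : {φ : R[X] →+* F // Q (φ.comp C)}, f F φ.1 =
      ∑ᶠ φ : {φ : R →+* F // Q φ}, ∑ᶠ t : F, f F (eval₂RingHom φ.1 t) := by
  classical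
  let _ : Fintype F := Fintype.ofFinite F
  let _ : Fintype {φ : R →+* F // Q φ} := Fintype.ofFinite _
  let e1 : {φ : R[X] →+* F // Q (φ.comp C)} ≃ {w : (R →+* F) × F // Q w.1} :=
    (lineEq F).subtypeEquiv fun φ => Iff.rfl
  let e2 : {w : (R →+* F) × F // Q w.1} ≃ {φ : R →+* F // Q φ} × F :=
    { toFun := fun w => (⟨w.1.1, w.2⟩, w.1.2)
      invFun := fun w => ⟨(w.1.1, w.2), w.1.2⟩
      left_inv := fun w => rfl
      right_inv := fun w => rfl }
  rw [← finsum_comp_equiv (e1.trans e2).symm, finsum_eq_sum_of_fintype, finsum_eq_sum_of_fintype,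
    Fintype.sum_prod_type]
  refine Finset.sum_congr rfl fun φ _ => ?_
  rw [finsum_eq_sum_of_fintype]
  rfl

theorem sA_line (f : Pf R[X]) (N : R) (F : Type) [Field F] [Finite F] [Finite (R →+* F)] :
    sA (lf f) N F = sA f (C N) F :=
  (sum_line f (fun φ : R →+* F => φ N ≠ 0)).symm

theorem sO_line {O : Type} [CommRing O] (f : Pf R[X]) (ρ : O →+* R) (N : R) (F : Type) [Field F]
    [Finite F] [Finite (R →+* F)] (ψ : O →+* F) :
    sO (lf f) ρ N F ψ = sO f ((C : R →+* R[X]).comp ρ) (C N) F ψ :=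
  (sum_line f (fun φ : R →+* F => φ.comp ρ = ψ ∧ φ N ≠ 0)).symm

end

section

theorem eval₂_iso {R F F' : Type} [CommRing R] [Field F] [Field F'] (e : F ≃+* F') (φ : R →+* F) (t : F) :
    eval₂RingHom ((e : F →+* F').comp φ) (e t) = (e : F →+* F').comp (eval₂RingHom φ t) := by
  apply Polynomial.ringHom_ext
  · intro a
    rw [coe_eval₂RingHom, eval₂_C]
    show e (φ a) = e (eval₂ φ t (C a))
    rw [eval₂_C]
  · rw [coe_eval₂RingHom, eval₂_X]
    show e t = e (eval₂ φ t X)
    rw [eval₂_X]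

theorem piso_lf {R : Type} [CommRing R] {f : Pf R[X]} (hf : PIso f) : PIso (lf f) := by
  intro F F' _ _ e φ
  unfold lf
  rw [← finsum_comp_equiv (e : F ≃ F')]
  refine finsum_congr fun t => ?_
  have h1 := hf F F' e (eval₂RingHom φ t)
  rw [← eval₂_iso] at h1
  exact h1

/-- the number of the points of the surface minus `1 + q²` -/
noncomputable def tr3 (F : Type) [Field F] (P : F[X][X][X]) (P' : F[X][X]) : ℝ :=
  ((Nat.card {Q : F × F × F // evalEval Q.2.1 Q.2.2 (P.map (mapRingHom (evalRingHom Q.1))) = 0} +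
    Nat.card {z : F × F // evalEval z.1 z.2 P' = 0} + (Nat.card F + 1) : ℕ) : ℝ) - 1 -
      (Nat.card F : ℝ) ^ 2

theorem tr3_eq {F : Type} [Field F] [Finite F] (P : F[X][X][X]) (P' : F[X][X]) :
    tr3 F P P' = 2 * (Nat.card F : ℝ) - (∑ᶠ t : F, trc2 F (P.map (mapRingHom (evalRingHom t)))) -
      trc2 F P' := by
  classical
  let _ : Fintype F := Fintype.ofFinite F
  have e1 : {Q : F × F × F // evalEval Q.2.1 Q.2.2 (P.map (mapRingHom (evalRingHom Q.1))) = 0} ≃
      Σ t : F, {z : F × F // evalEval z.1 z.2 (P.map (mapRingHom (evalRingHom t))) = 0} :=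
    { toFun := fun Q => ⟨Q.1.1, Q.1.2, Q.2⟩
      invFun := fun Q => ⟨(Q.1, Q.2.1), Q.2.2⟩
      left_inv := fun Q => rfl
      right_inv := fun Q => rfl }
  unfold tr3 trc2
  rw [Nat.card_congr e1, Nat.card_sigma, finsum_eq_sum_of_fintype, Finset.sum_sub_distrib,
    Finset.sum_const, Finset.card_univ, nsmul_eq_mul, ← Nat.card_eq_fintype_card]
  push_cast
  ring

variable {R : Type} [CommRing R]

/-- the trace on `H²` of the surface divided by the order of the field -/
noncomputable def fs (G : R[X][X][X]) (G' : R[X][X]) : Pf R := fun F _ φ =>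
  (Nat.card F : ℝ)⁻¹ * tr3 F (G.map (mapRingHom (mapRingHom φ))) (G'.map (mapRingHom φ))

theorem map_ev (G : R[X][X][X]) {F : Type} [Field F] (φ : R →+* F) (t : F) :
    (G.map (mapRingHom (mapRingHom φ))).map (mapRingHom (evalRingHom t)) =
      G.map (mapRingHom (eval₂RingHom φ t)) := by
  have h1 : (evalRingHom t).comp (mapRingHom φ) = eval₂RingHom φ t := by
    apply Polynomial.ringHom_ext
    · intro a
      rw [RingHom.comp_apply, coe_mapRingHom, map_C, coe_evalRingHom, eval_C, coe_eval₂RingHom, eval₂_C]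
    · rw [RingHom.comp_apply, coe_mapRingHom, map_X, coe_evalRingHom, eval_X, coe_eval₂RingHom, eval₂_X]
  rw [Polynomial.map_map, mapRingHom_comp, h1]

theorem fs_eq (G : R[X][X][X]) (G' : R[X][X]) (F : Type) [Field F] [Finite F] (φ : R →+* F) :
    fs G G' F φ = 2 - (Nat.card F : ℝ)⁻¹ * lf (tf G) F φ - (Nat.card F : ℝ)⁻¹ * tf G' F φ := by
  have hq : (Nat.card F : ℝ) ≠ 0 := by
    have : 0 < Nat.card F := Nat.card_pos
    exact_mod_cast this.ne'
  unfold fs
  rw [tr3_eq]
  have h1 : (∑ᶠ t : F, trc2 F ((G.map (mapRingHom (mapRingHom φ))).map (mapRingHom (evalRingHom t)))) =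
      lf (tf G) F φ := by
    unfold lf tf
    refine finsum_congr fun t => ?_
    rw [map_ev]
  rw [h1]
  show _ * (_ - _ - tf G' F φ) = _
  field_simp

theorem piso_fs (G : R[X][X][X]) (G' : R[X][X]) : PIso (fs G G') := by
  intro F F' _ _ e φ
  rcases finite_or_infinite F with hF | hF
  · have hF' : Finite F' := Finite.of_equiv F e.toEquiv
    rw [fs_eq, fs_eq, piso_lf (piso_tf G) F F' e φ, piso_tf G' F F' e φ, Nat.card_congr e.toEquiv]
  · have hF' : Infinite F' := Infinite.of_injective e e.injective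
    unfold fs
    rw [Nat.card_eq_zero_of_infinite, Nat.card_eq_zero_of_infinite]
    simp

end

section
variable {k₀ : Type} [Field k₀] [NumberField k₀] {K : Type} [Field K] [CharZero K]

/-- **The residue.** -/
theorem residue_fs (hKF : FG K) {e : ℕ} (htr : Algebra.trdeg ℚ K = e) {a b : ℕ} (ha : 0 < a)
    (hb : 0 < b) (hab : a.Coprime b) {R : Type} [CommRing R] [IsDomain R] [Algebra.FiniteType ℤ R]
    [Algebra R K] [IsFractionRing R K] [Algebra (𝓞 k₀) R] {G : R[X][X][X]} {G' : R[X][X]}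
    (hcab : IsCab a b G') {N : R} (hN : N ≠ 0) (ρ : ℕ)
    (h1 : Asy (fun F _ _ => sA (tf G) (C N) F) (e + 1) (-(ρ : ℝ)))
    (h2 : ∃ (C₁ : ℝ) (m : ℕ), 0 ≤ C₁ ∧ m ≠ 0 ∧ ∀ (F : Type) [Field F] [Finite F], ((m : ℕ) : F) ≠ 0 →
      ∀ ψ : 𝓞 k₀ →+* F, |sO (tf G) ((C : R →+* R[X]).comp (algebraMap (𝓞 k₀) R)) (C N) F ψ| ≤
        C₁ * (Nat.card F : ℝ) ^ (e + 1))
    (S : Finset (HeightOneSpectrum (𝓞 k₀))) :
    HasResidue S (fun v => (Ideal.absNorm v.asIdeal : ℝ) * avO (fs G G') N e v) 2
      ((2 + ρ : ℤ) : ℝ) := by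
  classical
  obtain ⟨C3, hC3, g3⟩ := hom_le (R := R) (K := K) (IsFractionRing.injective R K) (e := e)
    (by rw [htr])
  obtain ⟨c, hc0, hc⟩ := weil_map ha hb hab
  have hcG : ∀ (F : Type) [Field F] [Finite F] (φ : R →+* F), |tf G' F φ| ≤ c * √(Nat.card F : ℝ) :=
    fun F _ _ φ => hc R G' hcab F φ
  have hqq : ∀ (F : Type) [Field F] [Finite F], (0 : ℝ) < Nat.card F := fun F _ _ => by
    exact_mod_cast Nat.card_pos
  -- the small term
  have h3 : Asy (fun F _ _ => sA (tf G') N F) (e + 1) 0 := by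
    refine (Asy.zero (e + 1)).near ⟨C3 * c, 1, mul_nonneg hC3 hc0, one_ne_zero, fun F _ _ _ => ?_⟩
    have hfR : Finite (R →+* F) := Pool.Agent.TH958.An.finite_hom F
    have e2 : |sA (tf G') N F| ≤ (Nat.card (R →+* F) : ℝ) * (c * √(Nat.card F : ℝ)) := by
      let _ : Fintype (R →+* F) := Fintype.ofFinite _
      rw [sA_eq]
      calc |∑ φ : R →+* F, if φ N ≠ 0 then tf G' F φ else 0| ≤
          ∑ φ : R →+* F, |if φ N ≠ 0 then tf G' F φ else 0| := Finset.abs_sum_le_sum_abs _ _
        _ ≤ ∑ φ : R →+* F, c * √(Nat.card F : ℝ) := by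
            refine Finset.sum_le_sum fun φ _ => ?_
            split_ifs
            · exact hcG F φ
            · rw [abs_zero]
              exact mul_nonneg hc0 (Real.sqrt_nonneg _)
        _ = _ := by
            rw [Finset.sum_const, Finset.card_univ, nsmul_eq_mul, ← Nat.card_eq_fintype_card]
    rw [sub_zero]
    have hs : √(Nat.card F : ℝ) * √(Nat.card F : ℝ) = Nat.card F := Real.mul_self_sqrt (hqq F).le
    calc |sA (tf G') N F| * √(Nat.card F : ℝ) ≤
        ((Nat.card (R →+* F) : ℝ) * (c * √(Nat.card F : ℝ))) * √(Nat.card F : ℝ) :=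
          mul_le_mul_of_nonneg_right e2 (Real.sqrt_nonneg _)
      _ = (Nat.card (R →+* F) : ℝ) * (c * (√(Nat.card F : ℝ) * √(Nat.card F : ℝ))) := by ring
      _ ≤ (C3 * (Nat.card F : ℝ) ^ e) * (c * (√(Nat.card F : ℝ) * √(Nat.card F : ℝ))) :=
          mul_le_mul_of_nonneg_right (g3 F) (by positivity)
      _ = C3 * c * (Nat.card F : ℝ) ^ (e + 1) := by
          rw [hs]
          ring
  -- the sums
  have hsum : ∀ (F : Type) [Field F] [Finite F] [Finite (R →+* F)] (Q : (R →+* F) → Prop),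
      ∑ᶠ φ : {φ : R →+* F // Q φ}, fs G G' F φ.1 = 2 * (Nat.card {φ : R →+* F // Q φ} : ℝ) -
        (Nat.card F : ℝ)⁻¹ * (∑ᶠ φ : {φ : R →+* F // Q φ}, lf (tf G) F φ.1) -
        (Nat.card F : ℝ)⁻¹ * (∑ᶠ φ : {φ : R →+* F // Q φ}, tf G' F φ.1) := by
    intro F _ _ _ Q
    let _ : Fintype {φ : R →+* F // Q φ} := Fintype.ofFinite _
    rw [finsum_eq_sum_of_fintype, finsum_eq_sum_of_fintype, finsum_eq_sum_of_fintype, Finset.mul_sum,
      Finset.mul_sum]
    have e1 : (2 * (Nat.card {φ : R →+* F // Q φ} : ℝ)) = ∑ φ : {φ : R →+* F // Q φ}, (2 : ℝ) := by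
      rw [Finset.sum_const, Finset.card_univ, nsmul_eq_mul, ← Nat.card_eq_fintype_card]
      ring
    rw [e1, ← Finset.sum_sub_distrib, ← Finset.sum_sub_distrib]
    exact Finset.sum_congr rfl fun φ _ => fs_eq G G' F φ.1
  have h4 : Asy (fun F _ _ => sA (fs G G') N F) e ((2 + ρ : ℤ) : ℝ) := by
    apply Asy.divq
    have t1 := ((asy_sH hKF htr hN).smul 2).mulq
    have t2 := (t1.add h1.neg).add h3.neg
    have e1 : (2 : ℝ) * 1 + -(-(ρ : ℝ)) + -0 = ((2 + ρ : ℤ) : ℝ) := by
      push_cast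
      ring
    rw [e1] at t2
    refine t2.congr 1 one_ne_zero fun F _ _ _ => ?_
    have hfR : Finite (R →+* F) := Pool.Agent.TH958.An.finite_hom F
    have e2 := hsum F (fun φ => φ N ≠ 0)
    have e3 : sA (fs G G') N F = 2 * (Nat.card {φ : R →+* F // φ N ≠ 0} : ℝ) -
        (Nat.card F : ℝ)⁻¹ * sA (lf (tf G)) N F - (Nat.card F : ℝ)⁻¹ * sA (tf G') N F := e2
    rw [e3, sA_line]
    have hq := (hqq F).ne'
    show (Nat.card F : ℝ) * _ = (Nat.card F : ℝ) * (2 * (Nat.card {φ : R →+* F // φ N ≠ 0} : ℝ)) +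
      -sA (tf G) (C N) F + -sA (tf G') N F
    field_simp
    ring
  obtain ⟨C1, m1, hC1, hm1, g1⟩ := h2
  apply residue_shift
  refine res_model (piso_fs G G') ⟨2 * C3 + C1 + C3 * c, m1, by positivity, hm1,
    fun F _ _ hF ψ => ?_⟩ h4 S
  have hfR : Finite (R →+* F) := Pool.Agent.TH958.An.finite_hom F
  have e2 := hsum F (fun φ => φ.comp (algebraMap (𝓞 k₀) R) = ψ ∧ φ N ≠ 0)
  have e3 : sO (fs G G') (algebraMap (𝓞 k₀) R) N F ψ =
      2 * (Nat.card {φ : R →+* F // φ.comp (algebraMap (𝓞 k₀) R) = ψ ∧ φ N ≠ 0} : ℝ) -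
      (Nat.card F : ℝ)⁻¹ * sO (lf (tf G)) (algebraMap (𝓞 k₀) R) N F ψ -
      (Nat.card F : ℝ)⁻¹ * sO (tf G') (algebraMap (𝓞 k₀) R) N F ψ := e2
  rw [e3, sO_line]
  have i1 : (Nat.card {φ : R →+* F // φ.comp (algebraMap (𝓞 k₀) R) = ψ ∧ φ N ≠ 0} : ℝ) ≤
      Nat.card (R →+* F) := by
    exact_mod_cast Nat.card_le_card_of_injective _ Subtype.val_injective
  have i2 := g1 F hF ψ
  have i3 : |sO (tf G') (algebraMap (𝓞 k₀) R) N F ψ| ≤
      (Nat.card (R →+* F) : ℝ) * (c * √(Nat.card F : ℝ)) :=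
    sO_bound (by positivity) (fun φ => hcG F φ) ψ
  have hq := hqq F
  have hq1 : (1 : ℝ) ≤ Nat.card F := by exact_mod_cast Nat.card_pos
  have hsq : √(Nat.card F : ℝ) ≤ Nat.card F := by
    rw [Real.sqrt_le_left (by linarith)]
    nlinarith
  have i4 := g3 F
  have j1 : |2 * (Nat.card {φ : R →+* F // φ.comp (algebraMap (𝓞 k₀) R) = ψ ∧ φ N ≠ 0} : ℝ)| ≤
      2 * C3 * (Nat.card F : ℝ) ^ e := by
    rw [abs_of_nonneg (by positivity)]
    nlinarith
  have j2 : |(Nat.card F : ℝ)⁻¹ * sO (tf G) ((C : R →+* R[X]).comp (algebraMap (𝓞 k₀) R)) (C N) F ψ| ≤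
      C1 * (Nat.card F : ℝ) ^ e := by
    rw [abs_mul, abs_inv, abs_of_pos hq, inv_mul_le_iff₀ hq]
    refine i2.trans (le_of_eq ?_)
    ring
  have j3 : |(Nat.card F : ℝ)⁻¹ * sO (tf G') (algebraMap (𝓞 k₀) R) N F ψ| ≤
      C3 * c * (Nat.card F : ℝ) ^ e := by
    rw [abs_mul, abs_inv, abs_of_pos hq, inv_mul_le_iff₀ hq]
    calc _ ≤ (Nat.card (R →+* F) : ℝ) * (c * √(Nat.card F : ℝ)) := i3
      _ ≤ (C3 * (Nat.card F : ℝ) ^ e) * (c * (Nat.card F : ℝ)) :=
          mul_le_mul i4 (mul_le_mul_of_nonneg_left hsq hc0) (by positivity) (by positivity)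
      _ = _ := by ring
  calc _ ≤ |2 * (Nat.card {φ : R →+* F // φ.comp (algebraMap (𝓞 k₀) R) = ψ ∧ φ N ≠ 0} : ℝ)| +
      |(Nat.card F : ℝ)⁻¹ * sO (tf G) ((C : R →+* R[X]).comp (algebraMap (𝓞 k₀) R)) (C N) F ψ| +
      |(Nat.card F : ℝ)⁻¹ * sO (tf G') (algebraMap (𝓞 k₀) R) N F ψ| :=
        (abs_sub _ _).trans (add_le_add (abs_sub _ _) le_rfl)
    _ ≤ 2 * C3 * (Nat.card F : ℝ) ^ e + C1 * (Nat.card F : ℝ) ^ e + C3 * c * (Nat.card F : ℝ) ^ e :=
        add_le_add (add_le_add j1 j2) j3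
    _ = _ := by ring

end

section
variable {R : Type} [CommRing R]

/-- the fibre at infinity -/
noncomputable def tinf (a b n : ℕ) (H : R[X][X][X]) : R[X][X] :=
  ∑ j ∈ Finset.range (a + 1), C (∑ i ∈ Finset.range (b + 1),
    C (((H.coeff j).coeff i).coeff (n * (a * b - (a * i + b * j)))) * X ^ i) * X ^ j

theorem tinf_coeff (a b n : ℕ) (H : R[X][X][X]) (i j : ℕ) : ((tinf a b n H).coeff j).coeff i =
    if j ≤ a ∧ i ≤ b then ((H.coeff j).coeff i).coeff (n * (a * b - (a * i + b * j))) else 0 := by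
  unfold tinf
  rw [finset_sum_coeff]
  simp only [coeff_C_mul_X_pow]
  by_cases hj : j ≤ a
  · rw [Finset.sum_eq_single j]
    · rw [if_pos rfl, finset_sum_coeff]
      simp only [coeff_C_mul_X_pow]
      by_cases hi : i ≤ b
      · rw [if_pos ⟨hj, hi⟩, Finset.sum_eq_single i]
        · rw [if_pos rfl]
        · intro c _ hc
          rw [if_neg (Ne.symm hc)]
        · intro h
          exact absurd (Finset.mem_range.2 (by omega)) h
      · rw [if_neg (fun h => hi h.2)]
        refine Finset.sum_eq_zero fun c hc => ?_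
        rw [Finset.mem_range] at hc
        rw [if_neg (by omega)]
    · intro c _ hc
      rw [if_neg (Ne.symm hc)]
    · intro h
      exact absurd (Finset.mem_range.2 (by omega)) h
  · rw [if_neg (fun h => hj h.1)]
    rw [Finset.sum_eq_zero]
    · rw [coeff_zero]
    · intro c hc
      rw [Finset.mem_range] at hc
      rw [if_neg (by omega)]

theorem EE_coeff (S : Type) [CommRing S] (a b i j : ℕ) : (((X ^ a - C (X ^ b) : S[X][X]).coeff j).coeff i) =
    (if j = a ∧ i = 0 then 1 else 0) - (if j = 0 ∧ i = b then 1 else 0) := by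
  rw [coeff_sub, coeff_X_pow, coeff_C, coeff_sub]
  congr 1
  · by_cases hj : j = a
    · rw [if_pos hj, coeff_one]
      by_cases hi : i = 0
      · rw [if_pos hi, if_pos ⟨hj, hi⟩]
      · rw [if_neg hi, if_neg (fun h => hi h.2)]
    · rw [if_neg hj, coeff_zero, if_neg (fun h => hj h.1)]
  · by_cases hj : j = 0
    · rw [if_pos hj, coeff_X_pow]
      by_cases hi : i = b
      · rw [if_pos hi, if_pos ⟨hj, hi⟩]
      · rw [if_neg hi, if_neg (fun h => hi h.2)]
    · rw [if_neg hj, coeff_zero, if_neg (fun h => hj h.1)]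

theorem tinf_cab {a b : ℕ} (n : ℕ) {H : R[X][X][X]} (hH : IsCab a b H) : IsCab a b (tinf a b n H) := by
  classical
  intro i j hc
  by_contra hge
  apply hc
  show (((tinf a b n H - (X ^ a - C (X ^ b))).coeff j).coeff i) = 0
  have h1 : (((H - (X ^ a - C (X ^ b))).coeff j).coeff i) = 0 := by
    by_contra h0
    exact hge (hH i j h0)
  rw [coeff_sub, coeff_sub, EE_coeff, sub_eq_zero] at h1 ⊢
  rw [tinf_coeff]
  have h2 : a * b - (a * i + b * j) = 0 := by omega
  by_cases hr : j ≤ a ∧ i ≤ b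
  · rw [if_pos hr, h1, h2, mul_zero, coeff_sub]
    congr 1
    · split_ifs
      · rw [coeff_one_zero]
      · rw [coeff_zero]
    · split_ifs
      · rw [coeff_one_zero]
      · rw [coeff_zero]
  · rw [if_neg hr, if_neg, if_neg, sub_zero]
    · rintro ⟨rfl, rfl⟩
      exact hr ⟨Nat.zero_le _, le_rfl⟩
    · rintro ⟨rfl, rfl⟩
      exact hr ⟨le_rfl, Nat.zero_le _⟩

theorem tinf_map {S : Type} [CommRing S] (φ : R →+* S) (a b n : ℕ) (H : R[X][X][X]) :
    (tinf a b n H).map (mapRingHom φ) = tinf a b n (H.map (mapRingHom (mapRingHom φ))) := by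
  ext j i
  rw [coeff_map, coe_mapRingHom, coeff_map, tinf_coeff, tinf_coeff, coeff_map, coe_mapRingHom,
    coeff_map, coe_mapRingHom, coeff_map]
  split_ifs
  · rfl
  · rw [map_zero]

end

section

/-- the polynomials over a model form a model of the field of rational functions -/
theorem frac_poly {R K : Type} [CommRing R] [IsDomain R] [Field K] [Algebra R K] [IsFractionRing R K]
    [Algebra R[X] (RatFunc K)] (h : algebraMap R[X] (RatFunc K) =
      (algebraMap K[X] (RatFunc K)).comp (mapRingHom (algebraMap R K))) :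
    IsFractionRing R[X] (RatFunc K) := by
  have hiR : Function.Injective (algebraMap R K) := IsFractionRing.injective R K
  have hi : Function.Injective (algebraMap R[X] (RatFunc K)) := by
    rw [h]
    exact (RatFunc.algebraMap_injective K).comp (Polynomial.map_injective _ hiR)
  have hf : FaithfulSMul R[X] (RatFunc K) := (faithfulSMul_iff_algebraMap_injective _ _).2 hi
  have hloc : IsLoc ((nonZeroDivisors R).map (C : R →+* R[X])) (mapRingHom (algebraMap R K)) :=
    (isLoc_iff.2 (inferInstance : IsFractionRing R K)).poly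
  have hne : ∀ s ∈ (nonZeroDivisors R).map (C : R →+* R[X]), algebraMap R[X] (RatFunc K) s ≠ 0 := by
    rintro _ ⟨a, ha, rfl⟩
    rw [Ne, map_eq_zero_iff _ hi]
    exact fun h0 => nonZeroDivisors.ne_zero ha (C_eq_zero.1 h0)
  refine IsFractionRing.of_field _ _ fun z => ?_
  obtain ⟨p, q, hq, rfl⟩ := IsFractionRing.div_surjective (A := K[X]) z
  obtain ⟨s, hs, r, hr⟩ := hloc.den p
  obtain ⟨s', hs', r', hr'⟩ := hloc.den q
  have e1 : ∀ x : R[X], algebraMap R[X] (RatFunc K) x =
      algebraMap K[X] (RatFunc K) (mapRingHom (algebraMap R K) x) := fun x => by rw [h]; rfl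
  have h1 := hne s hs
  have h2 := hne s' hs'
  have h3 : algebraMap K[X] (RatFunc K) q ≠ 0 :=
    (map_ne_zero_iff _ (RatFunc.algebraMap_injective K)).2 (nonZeroDivisors.ne_zero hq)
  have h4 : algebraMap R[X] (RatFunc K) r = algebraMap K[X] (RatFunc K) p * algebraMap R[X] (RatFunc K) s := by
    rw [e1, e1, ← hr, map_mul]
  have h5 : algebraMap R[X] (RatFunc K) r' = algebraMap K[X] (RatFunc K) q * algebraMap R[X] (RatFunc K) s' := by
    rw [e1, e1, ← hr', map_mul]
  refine ⟨r * s', r' * s, ?_⟩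
  rw [map_mul, map_mul, h4, h5]
  field_simp

end

end Pool.Agent.Run7.h642.NG
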